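import Pool.Agent.Work.MP_d3ab46_al.Hedge.Up
import Pool.Agent.Work.MP_d3ab46_al.Hedge.Sl
import Pool.Agent.Work.MP_d3ab46_al.Odd.Pauli

-- merged part: Pool.Agent.Work.MP_d3ab46_al.Hedge.L2
section
-- merged part: Pool.Agent.Work.MP_d3ab46_al.Hedge.T23
section
/-!
Solvable linear groups over the fields with two and three elements.
-/

namespace Pool.Agent.Work.MP_d3ab46_al

open Subgroup Module Pool.Agent.Work.MP_36bee3_al

section Tools

variable {G : Type} [Group G] {A : Subgroup G} {F : Type} [Field F] {V : Type} [AddCommGroup V]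
  [Module F V]

lemma wt_inj (ρ : G →* End F V) (hfp : ∀ a ∈ A, a ≠ 1 → ∀ v, ρ a v = v → v = 0) {χ : A → F}
    (h0 : wt (fun a : A => ρ a) χ ≠ ⊥) (a : A) (h : χ a = 1) : a = 1 := by
  obtain ⟨v, hv, hv0⟩ := (Submodule.ne_bot_iff _).mp h0
  by_contra h1
  exact hv0 (hfp a a.2 (fun h2 => h1 (Subtype.ext h2)) v (by rw [mem_wt.mp hv a, h, one_smul]))

lemma no_root (c : ℕ) [Fact c.Prime] [CharP F c] (ψ : A →* F) (hψ : ∀ a, ψ a = 1 → a = 1) :
    ∀ z ∈ A, z ^ c = 1 → z = 1 := fun z hz h =>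
  congrArg Subtype.val (hψ ⟨z, hz⟩ (frobenius_inj F c (by
    rw [frobenius_def, ← map_pow, show (⟨z, hz⟩ : A) ^ c = 1 from Subtype.ext h, map_one,
      map_one])))

lemma le_rel_of_no_root [Finite G] [hA : A.Normal] {c : ℕ} (h : ∀ z ∈ A, z ^ c = 1 → z = 1) :
    A ≤ rel (piN {c}ᶜ) ⊥ := by
  refine le_rel hA fun a ha => ?_
  obtain ⟨m, hm, b, hb, h1⟩ := exists_pow_piN {c}ᶜ a
  rw [compl_compl] at hb
  obtain ⟨k, rfl⟩ := exists_pow_of_piN hb
  refine ⟨m, hm, mem_bot.mpr ?_⟩
  clear hb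
  induction k with
  | zero => simpa using h1
  | succ k ih => exact ih (h _ (pow_mem (pow_mem ha m) _) (by rwa [← pow_mul, ← pow_succ]))

lemma MaxAb.prime [Finite G] [Group.IsSolvable G] (hA : MaxAb A) [A.Normal] (E : Sec A) {c : ℕ}
    (h : ∀ z ∈ A, z ^ c = 1 → z = 1) : ∃ r : ℕ, r.Prime ∧ r ≠ c ∧ ∀ e ∈ E.1, e ^ r ∈ A := by
  obtain ⟨r, hr, h1⟩ := E.2.1.prime
  obtain ⟨z, hz, hz1, hz2⟩ := hA.exists_root E h1
  exact ⟨r, hr, fun e => hz1 (h z hz (e ▸ hz2)), h1⟩

lemma two_mul_lt_three_pow {j : ℕ} (hj : 1 ≤ j) : 2 * j < 3 ^ j :=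
  (two_mul_le_two_pow hj).trans_lt (Nat.pow_lt_pow_left (by omega) (by omega))

lemma L.one_of_odd {D : Subgroup G} [D.Normal] (h : L {2}ᶜ D 1) :
    L {2} (rel (piN {2}) D) 1 := by
  exact L.of_compl (rel_idem _ _).le (h.mono (self_le_rel (piN {2}) D))

end Tools

theorem T2_holds : T2 := by
  intro G _ _ _ V _ _ _ ρ
  refine St_all (ZMod 2) 2 (P := fun d G _ D => ∀ l, d < 2 * 3 ^ l → L {2}ᶜ D l)
    ⟨fun h h1 l hl => h1 l (h.trans_lt hl), fun h h1 l hl => (h1 l hl).mono h,
      fun h1 h2 l hl => (h1 l hl).inf (h2 l hl), fun f h1 l hl => (h1 l hl).comap f,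
      fun _ _ _ l _ => L.top l⟩ ?_ G V ρ
  intro G _ _ _ ih V _ _ _ _ ρ hρ hirr l hl
  by_cases hD : Dec ρ
  · obtain ⟨K, _, t, e, hK, ht, he, hte, ⟨Ω, _, _, rfl, rfl⟩, ι, W, σ, hW, hσ⟩ := hD
    have h1 := PH0 G Ω
    have hj := Nat.pow_log_le_self 3 (x := Nat.card Ω) (by omega)
    generalize Nat.log 3 (Nat.card Ω) = j at h1 hj
    have hjl : j < l + 1 := (Nat.pow_lt_pow_iff_right (a := 3) (by omega)).mp (by
      rw [pow_succ]
      nlinarith only [he, hte, hl, ht, hj])
    obtain ⟨m, rfl⟩ : ∃ m, l = m + j := ⟨l - j, by omega⟩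
    have h2 : ∀ i, L {2}ᶜ (rel (Submonoid.powers 2) (σ i).ker) m := fun i =>
      ih _ (card_lt_of_ne_top hK) _ (σ i) m (by
        rw [hW]
        rw [pow_add] at hl
        refine lt_of_mul_lt_mul_left (a := 3 ^ j) ?_ (Nat.zero_le _)
        nlinarith only [hte, hl, hj])
    exact L.add ((L.iInf (fun i => inferInstance) h2).mono
      (iInf_rel_subgroupOf _ _ (fun i => inferInstance) (hρ ▸ hσ))) h1
  obtain ⟨A, hA⟩ := exists_maxAb G
  have := hA.normal
  by_cases hA0 : A = ⊥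
  · exact (L.top l).mono ((hA.top_le hA0).trans bot_le)
  have hfp := (kernel_dec ρ hρ hirr A hA.comm).resolve_right hD
  obtain ⟨K, _, _, _, V', _, _, _, ρ', hd, hfp', hfr⟩ := exists_frob 2 ρ
  have : Nontrivial V' := nontrivial_of_finrank_pos (R := K) (hd ▸ finrank_pos)
  obtain ⟨χ, v, hv, hv0⟩ := exists_wt (fun a : A => ρ' a) (commute_rho ρ' hA.comm)
  have h0 : wt (fun a : A => ρ' a) χ ≠ ⊥ := (Submodule.ne_bot_iff _).mpr ⟨v, hv, hv0⟩
  have hχ := wt_inj ρ' (fun a ha h => hfp' a (hfp a ha h)) h0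
  obtain ⟨ψ, hψ⟩ := wt_hom ρ' h0
  have hψ' : ∀ a, ψ a = 1 → a = 1 := fun a h => hχ a (hψ a ▸ h)
  have hroot := no_root 2 ψ hψ'
  have h1 := hfr A χ hA.comm fun h => hA0 (eq_bot_iff.mpr fun a ha => by
    have h2 : ψ ⟨a, ha⟩ ^ 2 = ψ ⟨a, ha⟩ := by
      rw [hψ]
      exact congrFun h _
    rw [pow_two, ((Group.isUnit _).map ψ).mul_eq_left] at h2
    exact congrArg Subtype.val (hψ' _ h2))
  have h2 : 0 < finrank K (wt (fun a : A => ρ' a) χ) := by
    have := Submodule.nontrivial_iff_ne_bot.mpr h0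
    exact finrank_pos
  obtain _ | m := l
  · omega
  have h3 : ∀ E : Sec A, L {2}ᶜ (rel (piN {2}ᶜ) (cen A E.1)) m := by
    intro E
    obtain ⟨r, hr, hr2, h3⟩ := hA.prime E hroot
    have : Fact r.Prime := ⟨hr⟩
    obtain ⟨B, _, _, _, τ, h4, h5, h6⟩ := E.rep r h3
    obtain ⟨j, h7, h8⟩ := hA.dim E ρ' h0 hχ hr h5
    refine (h4 ▸ (LH0 G (ZMod r) r B τ).mono
      (rel_mono_left (powers_le_piN hr hr2) _)).mono_left ?_
    have h9 := Nat.log_lt_of_lt_pow (b := 3) h6 (h7.trans_lt (two_mul_lt_three_pow (by omega)))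
    have h10 := Nat.pow_le_pow_left (three_le_of_odd r hr hr2) j
    have h11 : j < m + 1 := (Nat.pow_lt_pow_iff_right (a := 3) (by omega)).mp (by omega)
    omega
  have h4 := hA.sec_le (piN {2}ᶜ) fun E => by
    obtain ⟨r, hr, hr2, h3⟩ := hA.prime E hroot
    exact ⟨r, prime_mem_piN hr hr2, h3⟩
  have hN : (⨅ E : Sec A, rel (piN {2}ᶜ) (cen A E.1)).Normal :=
    normal_iInf_normal fun E => inferInstance
  have h5 := (L.iInf (fun E => inferInstance) h3).mono
    (le_rel_rel_of_comm (π := {2}ᶜ) (D := rel (piN {2}ᶜ) A) fun a ha b hb =>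
      h4 (mem_inf.mpr ⟨comm_mem_centralizer ψ hψ' a b,
        mul_mem (mul_mem (mul_mem ha hb) (inv_mem ha)) (inv_mem hb)⟩))
  refine (L.of_rel (h5.of_rel'.mono ?_)).mono bot_le
  exact (rel_idem _ _).le.trans ((rel_mono _ (le_rel_of_no_root hroot)).trans (rel_idem _ _).le)

lemma sq_mem_ker {K : Type} [Group K] {W : Type} [AddCommGroup W] [Module (ZMod 3) W]
    (h : finrank (ZMod 3) W = 1) (σ : K →* End (ZMod 3) W) (k : K) : k ^ 2 ∈ σ.ker := by
  obtain ⟨v, hv, h1⟩ := finrank_eq_one_iff'.mp h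
  obtain ⟨c, hc⟩ := h1 (σ k v)
  have h2 : c ≠ 0 := fun h0 => rho_ne_zero σ k hv (by rw [← hc, h0, zero_smul])
  have h3 : ∀ c : ZMod 3, c ≠ 0 → c * c = 1 := by decide
  refine LinearMap.ext fun w => ?_
  obtain ⟨a, rfl⟩ := h1 w
  rw [pow_two, map_mul, map_smul, map_smul, Module.End.mul_apply, ← hc, map_smul, ← hc,
    smul_smul c, h3 c h2, one_smul, Module.End.one_apply]

theorem T3_holds : T3 := by
  intro G _ _ _ V _ _ _ ρ
  refine St_all (ZMod 3) 3 (P := fun d G _ D => d ≤ 4 → L {2} (rel (piN {2}) D) 1)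
    ⟨fun h h1 hl => h1 (h.trans hl), fun h h1 hl => (h1 hl).mono (rel_mono _ h),
      fun h1 h2 hl => ((h1 hl).inf (h2 hl)).mono (inf_rel_le _ _ _),
      fun f h1 hl => ((h1 hl).comap f).mono (comap_rel_le _ _ _),
      fun _ _ _ _ => (L.top 1).mono (self_le_rel _ _)⟩ ?_ G V ρ
  intro G _ _ _ _ V _ _ _ _ ρ hρ hirr hl
  by_cases hD : Dec ρ
  · obtain ⟨K, hKn, t, e, hK, ht, he, hte, ⟨Ω, _, _, rfl, rfl⟩, ι, W, σ, hW, hσ⟩ := hD
    have h1 := PH0 G Ω
    obtain rfl | rfl : e = 1 ∨ e = 2 := by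
      have : e < 3 := by nlinarith only [hl, hte, ht]
      omega
    · refine L.of_compl (rel_idem _ _).le ((h1.mono_left (Nat.lt_succ_iff.mp
        (Nat.log_lt_of_lt_pow (by omega) (by omega)))).mono (le_rel hKn fun k hk => ?_))
      refine ⟨2, two_mem_piN, self_le_rel _ _ ?_⟩
      rw [← hρ]
      exact hσ (mem_iInf.mpr fun i => sq_mem_ker (hW i) (σ i) ⟨k, hk⟩)
    · rw [Nat.log_of_lt (by omega)] at h1
      have h2 : ∀ i, L {2}ᶜ (rel (Submonoid.powers 3) (σ i).ker) 1 := fun i => by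
        have := LH0 _ (ZMod 3) 3 _ (σ i)
        rwa [hW, Nat.log_of_lt (by omega)] at this
      exact (L.add ((L.iInf (fun i => inferInstance) h2).mono
        (iInf_rel_subgroupOf _ _ (fun i => inferInstance) (hρ ▸ hσ))) h1).one_of_odd
  obtain ⟨A, hA⟩ := exists_maxAb G
  have := hA.normal
  have hfp := fun (B : Subgroup G) [B.Normal] hB =>
    (kernel_dec ρ hρ hirr B hB).resolve_right hD
  obtain ⟨K, _, _, _, V', _, _, _, ρ', hd, hfp', hfr⟩ := exists_frob 3 ρ
  have : Nontrivial V' := nontrivial_of_finrank_pos (R := K) (hd ▸ finrank_pos)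
  obtain ⟨χ, v, hv, hv0⟩ := exists_wt (fun a : A => ρ' a) (commute_rho ρ' hA.comm)
  have h0 : wt (fun a : A => ρ' a) χ ≠ ⊥ := (Submodule.ne_bot_iff _).mpr ⟨v, hv, hv0⟩
  have hχ := fun χ h0 => wt_inj ρ' (fun a ha h => hfp' a (hfp A hA.comm a ha h)) (χ := χ) h0
  by_cases hA2 : ∀ a ∈ A, a ^ 2 = 1
  · have h1 : centralizer (A : Set G) = ⊤ := by
      refine eq_top_iff.mpr fun g _ => mem_centralizer_iff.mpr fun a ha => ?_
      by_cases ha1 : a = 1
      · simp [ha1]
      have h1 : ∀ u, ρ a u = -u := fun u => eq_neg_of_add_eq_zero_left (hfp A hA.comm a ha ha1 _ (by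
        rw [map_add, ← Module.End.mul_apply, ← map_mul, ← pow_two, hA2 a ha, map_one,
          Module.End.one_apply, add_comm]))
      refine (MonoidHom.ker_eq_bot_iff ρ).mp hρ (LinearMap.ext fun u => ?_)
      simp [h1]
    have h2 : ∀ E : Sec A, ∀ e ∈ E.1, e ^ 2 ∈ A := by
      intro E
      obtain ⟨r, hr, h2⟩ := E.2.1.prime
      obtain ⟨z, hz, hz1, hz2⟩ := hA.exists_root E h2
      by_cases h3 : r = 2
      · exact h3 ▸ h2
      · exact absurd (mem_bot.mp (mem_of_coprime ((Nat.coprime_primes hr Nat.prime_two).mpr h3)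
          (mem_bot.mpr hz2) (mem_bot.mpr (hA2 z hz)))) hz1
    have h3 : ∀ E : Sec A, L {2}ᶜ (rel (Submonoid.powers 2) (cen A E.1)) 1 := by
      intro E
      obtain ⟨B, _, _, _, τ, h4, h5, h6⟩ := E.rep 2 (h2 E)
      obtain ⟨j, h7, h8⟩ := hA.dim E ρ' h0 (hχ χ h0) Nat.prime_two h5
      have h9 := Submodule.finrank_le (wt (fun a : A => ρ' a) χ)
      have h10 : j < 3 := (Nat.pow_lt_pow_iff_right (a := 2) (by omega)).mp (by omega)
      exact h4 ▸ T2_holds G B τ 1 (by omega)
    have h4 := hA.sec_le (Submonoid.powers 2) fun E => ⟨2, Submonoid.mem_powers 2, h2 E⟩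
    refine L.of_compl (rel_idem _ _).le ((L.iInf (fun E => inferInstance) h3).mono
      (((le_inf (le_top.trans h1.ge) le_rfl).trans h4).trans ?_))
    refine (rel_mono_left (powers_le_piN Nat.prime_two (Set.mem_singleton 2)) _).trans
      (rel_le_rel fun a ha => ?_)
    exact ⟨2, two_mem_piN, by rw [hA2 a ha]; exact one_mem _⟩
  push Not at hA2
  obtain ⟨a, ha, ha2⟩ := hA2
  obtain ⟨ψ, hψ⟩ := wt_hom ρ' h0
  have h1 : ∀ χ, finrank K (wt (fun a : A => ρ' a) χ) < 3 := by
    intro χ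
    by_cases h0 : wt (fun a : A => ρ' a) χ = ⊥
    · rw [h0, finrank_bot]
      omega
    obtain ⟨ψ, hψ⟩ := wt_hom ρ' h0
    have := hfr A χ hA.comm fun h => ha2 (by
      have h2 : ψ ⟨a, ha⟩ ^ 3 = ψ ⟨a, ha⟩ := by
        rw [hψ]
        exact congrFun h _
      rw [pow_succ', ((Group.isUnit _).map ψ).mul_eq_left, ← map_pow, hψ] at h2
      exact congrArg Subtype.val (hχ χ h0 _ h2))
    omega
  let σ : ∀ χ : A → K, centralizer (A : Set G) →* End K (wt (fun a : A => ρ' a) χ) := fun χ =>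
    Representation.subrepresentation (ρ'.comp (centralizer (A : Set G)).subtype) _
      fun g v hv => wt_stable ρ' χ g.2 v hv
  have h2 : ∀ χ, L {2}ᶜ (rel (Submonoid.powers 3) (σ χ).ker) 1 := fun χ => by
    have := LH0 _ K 3 _ (σ χ)
    rwa [Nat.log_of_lt (h1 χ)] at this
  have hW : ∀ g, (⨆ χ, wt (fun a : A => ρ' a) χ) ≤ (⨆ χ, wt (fun a : A => ρ' a) χ).comap (ρ' g) :=
    fun g => iSup_le fun χ u hu => Submodule.mem_iSup_of_mem _ (wt_conj ρ' A g χ u hu)
  have h3 : (Representation.subrepresentation ρ' _ hW).ker ≤ ⊥ := by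
    by_contra h3
    obtain ⟨E, hE, h4⟩ := exists_minOver (D := ⊥) inferInstance (lt_of_le_not_ge bot_le h3)
    have := hE.1
    obtain ⟨x, hx, hx1⟩ := SetLike.exists_of_lt hE.2.1
    exact hv0 (hfp' x (hfp E (comm_of_minOver hE) x hx hx1) v (congrArg Subtype.val
      (LinearMap.congr_fun (MonoidHom.mem_ker.mp (h4 hx)) ⟨v, Submodule.mem_iSup_of_mem χ hv⟩)))
  have h4 := ((L.iInf (fun i => inferInstance) h2).mono (iInf_rel_subgroupOf (X := ⊥) _ _
    (fun i => inferInstance) fun g hg => h3 (LinearMap.ext fun u => Subtype.ext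
      ((iSup_le fun χ w hw => congrArg Subtype.val (LinearMap.congr_fun
        (MonoidHom.mem_ker.mp (mem_iInf.mp hg χ)) ⟨w, hw⟩) :
          _ ≤ LinearMap.eqLocus (ρ' g) 1) u.2)))).le_U
  rw [U, U, compl_compl] at h4
  refine eq_top_iff.mpr ((le_rel_rel_of_comm (π := {2}) fun g _ h _ =>
    comm_mem_centralizer ψ (fun a h => hχ χ h0 a (hψ a ▸ h)) g h).trans (rel_mono _ ?_))
  exact (rel_mono _ h4).trans (rel_idem _ _).le

end Pool.Agent.Work.MP_d3ab46_al
end

-- merged part: Pool.Agent.Work.MP_d3ab46_al.Hedge.P2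
section
/-!
The refined bound for permutation groups from the bound over the field with two elements.
-/

namespace Pool.Agent.Work.MP_d3ab46_al

open Subgroup Module Pool.Agent.Work.MP_36bee3_al
open scoped Pointwise

lemma p2_affine (h : T2) (G : Type) [Group G] [Finite G] [Group.IsSolvable G]
    (A : Subgroup G) [A.Normal] (hAc : A ≤ centralizer A)
    (hC : ∀ c ∈ centralizer (A : Set G), c ^ 2 = 1) {m : ℕ} (hm : Nat.card A < 4 * 3 ^ m) :
    L {2}ᶜ (⊥ : Subgroup G) m := by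
  let _ : CommGroup A := { (inferInstance : Group A) with
    mul_comm := fun a b => Subtype.ext (mem_centralizer_iff.mp (hAc b.2) a a.2) }
  let _ : Module (ZMod 2) (Additive A) := AddCommGroup.zmodModule fun x =>
    (Subtype.ext (hC _ (hAc x.toMul.2)) : x.toMul ^ 2 = 1)
  let φ : G →* MulAut A := MulAut.conjNormal
  obtain ⟨V, _, _, _, ρ, h1, h2⟩ := exists_rep_add' (G := G) (K := ZMod 2) (L := ZMod 2)
    (B := Additive A) (fun g => MonoidHom.toAdditive (φ g).toMonoidHom)
    (fun g c x => ZMod.map_smul _ c x) (fun x => by simp) (fun g h x => by simp)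
  rw [Nat.card_zmod] at h2
  have h3 : finrank (ZMod 2) V < 2 * 3 ^ m := by
    have h4 : Nat.card (Additive A) = Nat.card A := rfl
    rcases Nat.eq_zero_or_pos (finrank (ZMod 2) V) with h0 | h0
    · rw [h0]
      positivity
    · have := two_mul_le_two_pow h0
      omega
  refine L.of_rel' ((h G V ρ m h3).mono ((rel_mono_left powers_two_le _).trans
    (rel_le_rel fun c hc => ⟨2, powers_two_le (Submonoid.mem_powers 2),
      mem_bot.mpr (hC c (mem_centralizer_iff.mpr fun a ha => ?_))⟩)))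
  have h5 : c * a * c⁻¹ = a := congrArg Subtype.val ((h1 c).mp hc (Additive.ofMul ⟨a, ha⟩))
  exact (mul_inv_eq_iff_eq_mul.mp h5).symm

/-- A group with a transitive normal subgroup of exponent two. -/
lemma p2_block (h : T2) (K : Type) [Group K] [Finite K] [Group.IsSolvable K] (X : Type) [Finite X]
    [MulAction K X] (N : Subgroup K) [N.Normal] (hN : ∀ a ∈ N, a ^ 2 = 1) (x₀ : X)
    (htr : ∀ x : X, ∃ a ∈ N, a • x₀ = x) {m : ℕ} (hm : Nat.card X < 4 * 3 ^ m) :
    L {2}ᶜ (MulAction.toPermHom K X).ker m := by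
  set f := MulAction.toPermHom K X with hfdef
  let A : Subgroup f.range := N.map f.rangeRestrict
  have hAn : A.Normal := Normal.map inferInstance _ f.rangeRestrict_surjective
  have hA2 : ∀ a ∈ A, a ^ 2 = 1 := by
    rintro _ ⟨a, ha, rfl⟩
    rw [← map_pow, hN a ha, map_one]
  have hAc : A ≤ centralizer A := fun a ha => mem_centralizer_iff.mpr fun c hc => by
    have h1 : ∀ z ∈ A, z⁻¹ = z := fun z hz => inv_eq_of_mul_eq_one_right (sq z ▸ hA2 z hz)
    rw [← h1 _ (mul_mem hc ha), mul_inv_rev, h1 a ha, h1 c hc]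
  have hext : ∀ c ∈ centralizer (A : Set f.range), ∀ d ∈ centralizer (A : Set f.range),
      c.1 x₀ = d.1 x₀ → c = d := by
    intro c hc d hd e
    refine Subtype.ext (Equiv.ext fun x => ?_)
    obtain ⟨a, ha, rfl⟩ := htr x
    have h3 : a • c.1 x₀ = c.1 (a • x₀) := congrArg (fun t : f.range => t.1 x₀)
      (mem_centralizer_iff.mp hc _ ⟨a, ha, rfl⟩)
    have h4 : a • d.1 x₀ = d.1 (a • x₀) := congrArg (fun t : f.range => t.1 x₀)
      (mem_centralizer_iff.mp hd _ ⟨a, ha, rfl⟩)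
    rw [← h3, ← h4, e]
  have : Group.IsSolvable f.range :=
    Group.isSolvable_of_surjective (f := f.rangeRestrict) f.rangeRestrict_surjective
  have h3 := p2_affine h f.range A hAc (m := m) (fun c hc => by
      obtain ⟨a, ha, e⟩ := htr (c.1 x₀)
      rw [hext c hc (f.rangeRestrict a) (hAc ⟨a, ha, rfl⟩) e.symm]
      exact hA2 _ ⟨a, ha, rfl⟩)
    ((Nat.card_le_card_of_injective (fun a : A => a.1.1 x₀)
      fun a c e => Subtype.ext (hext _ (hAc a.2) _ (hAc c.2) e)).trans_lt hm)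
  refine (h3.comap f.rangeRestrict).mono ?_
  rw [MonoidHom.comap_bot, MonoidHom.ker_rangeRestrict]

lemma p2_transitive (h : T2) (G : Type) [Group G] [Finite G] [Group.IsSolvable G]
    (Ω : Type) [Finite Ω] [MulAction G Ω] [MulAction.IsPretransitive G Ω] (ω₀ : Ω)
    (hf : (MulAction.toPermHom G Ω).ker = ⊥) {n : ℕ} (hn : Nat.card Ω < 4 * 3 ^ n) :
    L {2}ᶜ (rel (piN {2}ᶜ) (⊥ : Subgroup G)) n := by
  rcases eq_or_ne (rel (piN {2}) (⊥ : Subgroup G)) ⊥ with h0 | h0
  · have h1 := PH0 G Ω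
    have : Nonempty Ω := ⟨ω₀⟩
    rw [hf] at h1
    have h2 := (h1.mono_left (Nat.lt_succ_iff.mp (Nat.log_lt_of_lt_pow (x := n + 2)
      Nat.card_pos.ne' (by rw [pow_add]; omega)))).rel_rel
    rwa [compl_compl, h0] at h2
  refine L.mono ?_ (self_le_rel _ _)
  obtain ⟨N, hN, hN2⟩ := exists_minOver (D := ⊥) inferInstance h0.bot_lt
  have hNn := hN.1
  obtain ⟨a₀, ha₀, ha₁⟩ := SetLike.exists_of_lt hN.2.1
  have hN2' : ∀ a ∈ N, a ^ 2 = 1 := by
    obtain ⟨r, hr, hNr⟩ := hN.prime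
    obtain ⟨m, hm, h1⟩ := pw_rel _ _ a₀ (hN2 ha₀)
    have : Fact r.Prime := ⟨hr⟩
    obtain rfl : r = 2 := hm.2 r hr
      (orderOf_eq_prime (hNr a₀ ha₀) ha₁ ▸ orderOf_dvd_of_pow_eq_one h1)
    exact hNr
  set B : Set Ω := MulAction.orbit N ω₀ with hB
  have hblock : MulAction.IsBlock G B := MulAction.IsBlock.orbit_of_normal ω₀
  have hcard := hblock.ncard_block_mul_ncard_orbit_eq (MulAction.nonempty_orbit ω₀)
  have hΔ : ∀ ω : Ω, (MulAction.orbit N ω).ncard = B.ncard := fun ω => by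
    obtain ⟨x, rfl⟩ := MulAction.exists_smul_eq G ω₀ ω
    rw [← MulAction.smul_orbit_eq_orbit_smul, Set.ncard_smul_set]
  have hs : 1 < B.ncard := by
    by_contra hs
    refine ha₁ (hf ▸ MonoidHom.mem_ker.mpr (Equiv.ext fun ω => ?_))
    exact (Set.ncard_le_one (Set.toFinite _)).mp ((hΔ ω).trans_le (not_lt.mp hs)) _
      (MulAction.mem_orbit ω (⟨a₀, ha₀⟩ : N)) _ (MulAction.mem_orbit_self ω)
  set K := (MulAction.toPermHom G (MulAction.orbit G B)).ker with hK
  have hKmem : ∀ g ∈ K, ∀ ω : Ω, g • MulAction.orbit N ω = MulAction.orbit N ω := by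
    intro g hg ω
    obtain ⟨x, rfl⟩ := MulAction.exists_smul_eq G ω₀ ω
    rw [← MulAction.smul_orbit_eq_orbit_smul]
    exact congrArg Subtype.val
      (Equiv.ext_iff.mp (MonoidHom.mem_ker.mp hg) ⟨x • B, MulAction.mem_orbit _ _⟩)
  have hNK : N ≤ K := fun a ha => MonoidHom.mem_ker.mpr (Equiv.ext (by
    rintro ⟨_, x, rfl⟩
    refine Subtype.ext ?_
    change a • x • B = x • B
    rw [hB, MulAction.smul_orbit_eq_orbit_smul]
    exact MulAction.smul_orbit (⟨a, ha⟩ : N) _))
  have h1 := PH0 G (MulAction.orbit G B)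
  rw [Nat.card_coe_set_eq] at h1
  set j := Nat.log 3 (MulAction.orbit G B).ncard with hj
  have ht : B.ncard * 3 ^ j < 4 * 3 ^ n := by
    have : Nonempty Ω := ⟨ω₀⟩
    refine (Nat.mul_le_mul_left _ (Nat.pow_log_le_self 3 ?_)).trans_lt (hcard ▸ hn)
    exact right_ne_zero_of_mul (hcard ▸ Nat.card_pos.ne')
  obtain ⟨m, rfl⟩ : ∃ m, n = m + j := by
    refine Nat.exists_eq_add_of_le' (Nat.lt_succ_iff.mp
      ((Nat.pow_lt_pow_iff_right (a := 3) (by omega)).mp ?_))
    have := Nat.mul_le_mul_right (3 ^ j) hs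
    rw [pow_succ]
    omega
  rw [pow_add, ← mul_assoc] at ht
  let Δ : Ω → SubMulAction K Ω := fun ω =>
    { carrier := MulAction.orbit N ω
      smul_mem' := fun k x hx => by
        rw [← hKmem k k.2 ω]
        exact Set.smul_mem_smul_set hx }
  have h2 : ∀ ω, L {2}ᶜ (MulAction.toPermHom K (Δ ω)).ker m := fun ω =>
    p2_block h K (Δ ω) (N.subgroupOf K) (fun a ha => Subtype.ext (hN2' _ ha))
      ⟨ω, MulAction.mem_orbit_self (M := N) ω⟩
      (by
        rintro ⟨_, a, rfl⟩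
        exact ⟨⟨a, hNK a.2⟩, a.2, rfl⟩)
      ((hΔ ω).trans_lt (lt_of_mul_lt_mul_right ht (Nat.zero_le _)))
  refine L.add ((L.iInf (fun ω => inferInstance) h2).mono fun k hk => ?_) h1
  rw [mem_subgroupOf, ← hf, MonoidHom.mem_ker]
  exact Equiv.ext fun ω => congrArg Subtype.val (Equiv.ext_iff.mp
    (MonoidHom.mem_ker.mp (mem_iInf.mp hk ω)) (⟨ω, MulAction.mem_orbit_self (M := N) ω⟩ : Δ ω))

theorem P2_of_T2 (h : T2) : P2 := by
  intro G _ _ _ Ω _ _ n hn
  have h1 : ∀ ω : Ω, L {2}ᶜ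
      (rel (piN {2}ᶜ) (MulAction.toPermHom G (MulAction.orbit G ω)).ker) n := by
    intro ω
    set f := MulAction.toPermHom G (MulAction.orbit G ω) with hf
    have : Group.IsSolvable f.range :=
      Group.isSolvable_of_surjective (f := f.rangeRestrict) f.rangeRestrict_surjective
    have : MulAction.IsPretransitive f.range (MulAction.orbit G ω) := ⟨fun x y => by
      obtain ⟨g, e⟩ := MulAction.exists_smul_eq G x y
      exact ⟨f.rangeRestrict g, e⟩⟩
    have h2 := p2_transitive h f.range (MulAction.orbit G ω) ⟨ω, MulAction.mem_orbit_self ω⟩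
      (eq_bot_iff.mpr fun c hc => mem_bot.mpr (Subtype.ext (MonoidHom.mem_ker.mp hc)))
      ((Nat.card_le_card_of_injective _ Subtype.val_injective).trans_lt hn)
    refine (h2.comap f.rangeRestrict).mono ((comap_rel_le _ _ _).trans ?_)
    rw [MonoidHom.comap_bot, MonoidHom.ker_rangeRestrict]
  refine (L.iInf (fun ω => inferInstance) h1).mono
    ((iInf_rel_le _ _ fun ω => inferInstance).trans (rel_mono _ fun g hg => ?_))
  exact MonoidHom.mem_ker.mpr (Equiv.ext fun ω => congrArg Subtype.val (Equiv.ext_iff.mp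
    (MonoidHom.mem_ker.mp (mem_iInf.mp hg ω)) ⟨ω, MulAction.mem_orbit_self ω⟩))

end Pool.Agent.Work.MP_d3ab46_al
end

-- merged part: Pool.Agent.Work.MP_d3ab46_al.Hedge.L2
section
/-!
The `2`-length of solvable linear groups over closed fields of characteristic two.
-/

namespace Pool.Agent.Work.MP_d3ab46_al

open Subgroup Module Pool.Agent.Work.MP_36bee3_al

lemma L.two_of_odd {G : Type*} [Group G] {D : Subgroup G} [D.Normal] {n : ℕ} (h : L {2}ᶜ D n) :
    L {2} D (n + 1) := by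
  have := h.compl
  rwa [compl_compl] at this

lemma two_mul_lt_of_three_le {l : ℕ} (hl : 2 ≤ l) : 2 * (l + 1) < 3 ^ l := by
  induction hl with
  | refl => norm_num
  | step h ih =>
    rw [pow_succ]
    omega

theorem L2_holds : L2 := by
  intro G _ _ _ F _ _ _ V _ _ _ ρ
  refine St_all F 2 (P := fun d G _ D => ∀ l, 3 * d < 4 * 3 ^ l → L {2} D l)
    ⟨fun h h1 l hl => h1 l (by omega), fun h h1 l hl => (h1 l hl).mono h,
      fun h1 h2 l hl => (h1 l hl).inf (h2 l hl), fun f h1 l hl => (h1 l hl).comap f,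
      fun _ _ _ l _ => L.top l⟩ ?_ G V ρ
  intro G _ _ _ ih V _ _ _ _ ρ hρ hirr l hl
  by_cases hD : Dec ρ
  · obtain ⟨K, _, t, e, hK, ht, he, hte, ⟨Ω, _, _, rfl, rfl⟩, ι, W, σ, hW, hσ⟩ := hD
    have ha := Nat.pow_log_le_self 3 (x := e) (by omega)
    set a := Nat.log 3 e with ha'
    by_cases h : 3 * e < 4 * 3 ^ a
    · have h1 : a < l := (Nat.pow_lt_pow_iff_right (a := 3) (by omega)).mp (by nlinarith only [hl, he, hte, ha, ht])
      obtain ⟨m, rfl⟩ : ∃ m, l = a + (m + 1) := ⟨l - a - 1, by omega⟩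
      have h2 := P2_of_T2 T2_holds G Ω m (by
        rw [pow_add, pow_succ] at hl
        refine lt_of_mul_lt_mul_left (a := 3 ^ a) ?_ (Nat.zero_le _)
        nlinarith only [hte, hl, ha])
      have h3 : ∀ i, L {2} (rel (Submonoid.powers 2) (σ i).ker) a := fun i =>
        ih _ (card_lt_of_ne_top hK) _ (σ i) a (by rwa [hW])
      have h4 := ((L.iInf (fun i => inferInstance) h3).mono
        (iInf_rel_subgroupOf _ _ (fun i => inferInstance) (hρ ▸ hσ))).le_U
      exact (h2.mono ((rel_mono _ h4).trans (rel_U _ _).le)).two_of_odd.of_U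
    · have h1 := PH0 G Ω
      have hj := Nat.pow_log_le_self 3 (x := Nat.card Ω) (by omega)
      generalize Nat.log 3 (Nat.card Ω) = j at h1 hj
      have h2 : a + j < l := (Nat.pow_lt_pow_iff_right (a := 3) (by omega)).mp (by
        rw [pow_add]
        have := Nat.mul_le_mul (not_lt.mp h) hj
        linarith only [hl, hte, this])
      have h3 : ∀ i, L {2}ᶜ (rel (Submonoid.powers 2) (σ i).ker) (a + 1) := fun i => by
        have := LH0 _ F 2 _ (σ i)
        rwa [hW] at this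
      exact L.of_compl (rel_piN_powers 2 _) ((L.add ((L.iInf (fun i => inferInstance) h3).mono
        (iInf_rel_subgroupOf _ _ (fun i => inferInstance) (hρ ▸ hσ))) h1).mono_left (by omega))
  obtain ⟨A, hA⟩ := exists_maxAb G
  have := hA.normal
  obtain ⟨χ, hχ⟩ := (weight_dec ρ hirr A hA.comm).resolve_right hD
  have hsc : ∀ (a : A) (v : V), ρ a v = χ a • v := fun a v =>
    mem_wt.mp (hχ ▸ Submodule.mem_top : v ∈ wt (fun a : A => ρ a) χ) a
  have hinj := (MonoidHom.ker_eq_bot_iff ρ).mp hρ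
  have h0 : wt (fun a : A => ρ a) χ ≠ ⊥ := hχ ▸ top_ne_bot
  have h1 : ∀ a, χ a = 1 → a = 1 := fun a h =>
    Subtype.ext (hinj (LinearMap.ext fun v => by simp [hsc, h]))
  have hZ : A ≤ center G := fun a ha => mem_center_iff.mpr fun g =>
    hinj (LinearMap.ext fun v => by simp [hsc ⟨a, ha⟩])
  obtain ⟨ψ, hψ⟩ := wt_hom ρ h0
  have hroot := no_root 2 ψ fun a h => h1 a (hψ a ▸ h)
  have h3 : ∀ E : Sec A, L {2} (rel (piN {2}ᶜ) (cen A E.1)) l := by
    intro E
    obtain ⟨r, hr, hr2, h3⟩ := hA.prime E hroot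
    have : Fact r.Prime := ⟨hr⟩
    obtain ⟨B, _, _, _, τ, h4, h5, h6⟩ := E.rep r h3
    obtain ⟨j, h7, h8⟩ := hA.dim E ρ h0 h1 hr h5
    replace h8 := h8.trans (Submodule.finrank_le _)
    have hr3 := three_le_of_odd r hr hr2
    have h9 := Nat.pow_le_pow_left hr3 j
    have h10 : j < l + 1 := (Nat.pow_lt_pow_iff_right (a := 3) (by omega)).mp (by
      rw [pow_succ]
      omega)
    have h11 : ∀ m, l = m + 1 → finrank (ZMod r) B < 3 ^ m →
        L {2} (rel (piN {2}ᶜ) (cen A E.1)) l := by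
      intro m hm h
      have h12 := Nat.log_lt_of_lt_pow h6 h
      exact (h4 ▸ (LH0 G (ZMod r) r B τ).mono
        (rel_mono_left (powers_le_piN hr hr2) _)).two_of_odd.mono_left (by omega)
    obtain _ | _ | _ | m := l
    · omega
    · obtain rfl : j = 1 := by omega
      rw [pow_one] at h8
      obtain rfl : r = 3 := by omega
      refine (sl_step hZ E.2.1.2.1.le E.2.1.comm h3 ?_ (hA.noncomm E)).mono (self_le_rel _ _)
      rw [← h5]
      exact Nat.pow_le_pow_right (n := 3) (by omega) h7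
    · by_cases hj : j = 2
      · subst hj
        obtain rfl : r = 3 := by
          by_contra h
          have := Nat.pow_le_pow_left (show 4 ≤ r by omega) 2
          omega
        have h12 := T3_holds G B τ h7
        rw [h4] at h12
        exact L.of_rel (h12.mono (rel_mono _ (rel_mono_left (powers_le_piN hr hr2) _)))
      · exact h11 1 rfl (by omega)
    · have := two_mul_lt_of_three_le (l := m + 2) (by omega)
      exact h11 (m + 2) rfl (by omega)
  have h4 := hA.sec_le (piN {2}ᶜ) fun E => by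
    obtain ⟨r, hr, hr2, h3⟩ := hA.prime E hroot
    exact ⟨r, prime_mem_piN hr hr2, h3⟩
  have h5 : (⊤ : Subgroup G) ≤ centralizer (A : Set G) := fun g _ =>
    mem_centralizer_iff.mpr fun a ha => (mem_center_iff.mp (hZ ha) g).symm
  refine (L.of_rel' ((L.iInf (fun E => inferInstance) h3).mono
    (((le_inf (le_top.trans h5) le_rfl).trans h4).trans ?_))).mono bot_le
  exact (rel_mono _ (le_rel_of_no_root hroot)).trans (rel_idem _ _).le

end Pool.Agent.Work.MP_d3ab46_al
end
end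

-- merged part: Pool.Agent.Work.MP_d3ab46_al.Odd.Lp
section
-- merged part: Pool.Agent.Work.MP_d3ab46_al.Odd.Sym
section
/-!
The symplectic step: an element of order `p` on a chief factor of symplectic type moves a
nondegenerate subspace of order `r ^ (2 i) ≡ 1` modulo `p`.
-/

namespace Pool.Agent.Work.MP_d3ab46_al

open Subgroup Module Pool.Agent.Work.MP_36bee3_al

section Pair

variable {H : Type} [Group H] [Finite H] {F : Type} [Field F]

lemma sym_pair (hc : ∀ a c : H, a * c * a⁻¹ * c⁻¹ ∈ center H) (ψ : center H →* F)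
    (hψ : Function.Injective ψ) {M₁ M₂ N₁ N₂ : Subgroup H} (hN : center H ≤ N₁)
    (h1 : ∀ m ∈ M₂, ∀ e ∈ N₁, m * e = e * m)
    (h2 : ∀ m ∈ M₂, (∀ e ∈ N₂, e * m = m * e) → m ∈ M₁) : M₁.relIndex M₂ ≤ N₁.relIndex N₂ := by
  have hn : N₁.Normal := ⟨fun m hm e => by
    rw [show e * m * e⁻¹ = (e * m * e⁻¹ * m⁻¹) * m by group]
    exact mul_mem (hN (hc e m)) hm⟩
  let c : H → H →* center H := fun m => MonoidHom.mk' (fun e => ⟨_, hc m e⟩) fun e e' =>
    Subtype.ext (by
      calc m * (e * e') * m⁻¹ * (e * e')⁻¹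
          = m * e * m⁻¹ * e⁻¹ * (e * (m * e' * m⁻¹ * e'⁻¹) * e⁻¹) := by group
        _ = _ := by rw [mem_center_iff.mp (hc m e') e, mul_inv_cancel_right]; rfl)
  let θ : M₂ ⧸ M₁.subgroupOf M₂ → (N₂ ⧸ N₁.subgroupOf N₂ →* F) := fun q =>
    QuotientGroup.lift _ (ψ.comp ((c q.out).comp N₂.subtype)) fun e he => by
      have : c q.out e = 1 := Subtype.ext (by
        change (q.out : H) * e * (q.out : H)⁻¹ * (e : H)⁻¹ = 1
        rw [h1 _ q.out.2 e he]
        group)
      exact (congrArg ψ this).trans (map_one ψ)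
  have hθ : Function.Injective θ := by
    intro q q' h
    rw [← q.out_eq', ← q'.out_eq', QuotientGroup.eq, mem_subgroupOf]
    refine h2 _ (q.out⁻¹ * q'.out).2 fun e he => ?_
    have h3 : (q.out : H) * e * (q.out : H)⁻¹ * e⁻¹ = q'.out * e * (q'.out : H)⁻¹ * e⁻¹ :=
      congrArg Subtype.val (hψ (DFunLike.congr_fun h ((⟨e, he⟩ : N₂) : N₂ ⧸ N₁.subgroupOf N₂)))
    rw [mul_left_inj] at h3
    push_cast
    calc e * ((q.out : H)⁻¹ * q'.out)
        = (q.out : H)⁻¹ * (q.out * e * (q.out : H)⁻¹) * q'.out := by group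
      _ = (q.out : H)⁻¹ * q'.out * e := by rw [h3]; group
  have := Fintype.ofFinite (M₂ ⧸ M₁.subgroupOf M₂)
  have := Fintype.ofFinite (N₂ ⧸ N₁.subgroupOf N₂)
  have h4 := ((linearIndependent_monoidHom (N₂ ⧸ N₁.subgroupOf N₂) F).comp θ hθ)
    |>.fintype_card_le_finrank
  rwa [finrank_fintype_fun_eq_card, ← Nat.card_eq_fintype_card, ← Nat.card_eq_fintype_card] at h4

lemma sym_sq (hc : ∀ a c : H, a * c * a⁻¹ * c⁻¹ ∈ center H) (ψ : center H →* F)
    (hψ : Function.Injective ψ) : ∃ s, (center H).index = s * s := by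
  obtain ⟨M, -, hM⟩ := Finite.exists_le_maximal
    (p := fun M : Subgroup H => center H ≤ M ∧ M ≤ centralizer M) (a := center H)
    ⟨le_rfl, center_le_centralizer _⟩
  obtain ⟨hZM, hMc⟩ := hM.prop
  have hmax : ∀ e ∈ centralizer (M : Set H), e ∈ M := by
    intro e hec
    have h1 : zpowers e ≤ centralizer (M : Set H) := zpowers_le.mpr hec
    exact hM.le_of_ge ⟨hZM.trans le_sup_left, sup_le (le_centralizer_iff.mp (sup_le hMc h1))
      (le_centralizer_iff.mp (sup_le (le_centralizer_iff.mp h1) (le_centralizer _)))⟩ le_sup_left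
        (mem_sup_right (mem_zpowers e))
  have h1 := sym_pair hc ψ hψ (M₁ := center H) (M₂ := M) (N₂ := ⊤) hZM
    (fun m hm e he => mem_centralizer_iff.mp (hMc he) m hm)
    fun m _ h => mem_center_iff.mpr fun e => h e (mem_top e)
  have h2 := sym_pair hc ψ hψ (M₁ := M) (M₂ := ⊤) (N₂ := M) le_rfl
    (fun m _ e he => mem_center_iff.mp he m) fun m _ h => hmax m (mem_centralizer_iff.mpr h)
  exact ⟨M.index, by
    rw [← relIndex_mul_index hZM, le_antisymm h1 h2, relIndex_top_right]⟩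

end Pair

variable {G : Type} [Group G] [Finite G] [Group.IsSolvable G] {A : Subgroup G} [A.Normal]
  {F : Type} [Field F] [IsAlgClosed F] {V : Type} [AddCommGroup V] [Module F V]
  [FiniteDimensional F V]

lemma sym_dim (E : Sec A) (ρ : G →* End F V) {χ : A → F} (h0 : wt (fun a : A => ρ a) χ ≠ ⊥)
    (hχ : ∀ a, χ a = 1 → a = 1) {K : Subgroup G} (hK : K ≤ E.1)
    (hz : ∀ x ∈ K, (∀ y ∈ K, y * x = x * y) → x ∈ A) :
    ∃ s, A.relIndex K = s * s ∧ s ≤ finrank F (wt (fun a : A => ρ a) χ) := by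
  set W := wt (fun a : A => ρ a) χ with hW
  have : Nontrivial W := Submodule.nontrivial_iff_ne_bot.mpr h0
  let σ : K →* End F W := Representation.subrepresentation (ρ.comp K.subtype) W
    fun e v hv => wt_stable ρ χ (E.2.2 (hK e.2)) v hv
  have hZ : center K = A.subgroupOf K := by
    refine le_antisymm (fun z h => ?_) fun z h => mem_center_iff.mpr fun e => ?_
    · exact hz z z.2 fun e he => congrArg Subtype.val (mem_center_iff.mp h ⟨e, he⟩)
    · exact Subtype.ext (mem_centralizer_iff.mp (E.2.2 (hK e.2)) z h).symm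
  have hσ : ∀ (z : K) (hz : (z : G) ∈ A), σ z = χ ⟨z, hz⟩ • 1 := fun z hz =>
    LinearMap.ext fun v => Subtype.ext (mem_wt.mp v.2 ⟨z, hz⟩)
  have h1 : ∀ z : K, (z : G) ∈ A → z ∈ σ.ker → z = 1 := fun z hz h =>
    Subtype.ext (congrArg (fun a : A => (a : G)) (hχ ⟨z, hz⟩ (smul_left_injective F
      (one_ne_zero (α := End F W)) (by simpa [hσ z hz] using h))))
  have hc : ∀ a c : K, ((a * c * a⁻¹ * c⁻¹ : K) : G) ∈ A := fun a c =>
    E.2.1.comm _ (hK a.2) _ (hK c.2)
  have hker : σ.ker = ⊥ := by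
    refine eq_bot_iff.mpr fun z hz => h1 z (hZ.le (mem_center_iff.mpr fun e => ?_)) hz
    have h2 := h1 _ (hc e z) (mul_mem (Normal.conj_mem inferInstance z hz e) (inv_mem hz))
    rwa [mul_inv_eq_one, mul_inv_eq_iff_eq_mul] at h2
  obtain ⟨s, -, hs2, hs3⟩ := relIndex_le_sq σ hker (fun z hz => ⟨_, hσ z (hZ.le hz)⟩) ⊤ le_top
    (fun a _ c _ => hZ.ge (hc a c)) fun a _ h =>
      mem_center_iff.mpr fun e => mem_centralizer_iff.mp h e (mem_top e)
  obtain ⟨ψ, hψ⟩ := wt_hom ρ h0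
  obtain ⟨t, ht⟩ := sym_sq (fun a c => hZ.ge (hc a c))
    (ψ.comp ((K.subtype.comp (center K).subtype).codRestrict A fun z => hZ.le z.2))
    ((injective_iff_map_eq_one _).mpr fun z h => Subtype.ext (Subtype.ext
      (congrArg (fun a : A => (a : G)) (hχ _ ((hψ _).symm.trans h)))))
  rw [relIndex_top_right, ht] at hs2
  exact ⟨t, by rw [← ht, hZ]; rfl, (Nat.mul_self_le_mul_self_iff.mp hs2).trans hs3⟩

lemma sym_one (hA : MaxAb A) (E : Sec A) (ρ : G →* End F V) {χ : A → F}
    (h0 : wt (fun a : A => ρ a) χ ≠ ⊥) (hχ : ∀ a, χ a = 1 → a = 1) {r p : ℕ} (hr : r.Prime)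
    (hp : p.Prime) (hrp : r ≠ p) (hE : ∀ e ∈ E.1, e ^ r ∈ A)
    (h : ∀ i, 1 ≤ i → r ^ i ≤ finrank F (wt (fun a : A => ρ a) χ) → ¬ p ∣ r ^ (2 * i) - 1)
    {g : G} (hg : g ∈ centralizer (A : Set G)) (hgp : g ^ p ∈ cen A E.1) : g ∈ cen A E.1 := by
  classical
  have := Fact.mk hr
  have := Fact.mk hp
  let π := QuotientGroup.mk' A
  have hπ : ∀ x, π x = 1 ↔ x ∈ A := QuotientGroup.eq_one_iff
  have hm : ∀ w ∈ E.1, g * w * g⁻¹ * w⁻¹ ∈ E.1 := fun w hw =>
    mul_mem (Normal.conj_mem inferInstance w hw g) (inv_mem hw)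
  have hQ : ∀ x ∈ E.1, ∀ y ∈ E.1, π x * π y = π y * π x := fun x hx y hy => by
    have h1 := (hπ _).mpr (E.2.1.comm x hx y hy)
    rwa [map_mul, map_mul, map_mul, map_inv, map_inv, mul_inv_eq_one, mul_inv_eq_iff_eq_mul] at h1
  let δ : E.1 →* G ⧸ A := MonoidHom.mk' (fun x => π (g * x * g⁻¹ * (x : G)⁻¹)) fun x y => by
    have h1 := hQ _ (inv_mem x.2) _ (hm y y.2)
    calc π (g * (x * y) * g⁻¹ * ((x : G) * y)⁻¹)
        = π (g * x * g⁻¹) * (π (g * y * g⁻¹ * (y : G)⁻¹) * π (x : G)⁻¹) := by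
          simp only [← map_mul]
          congr 1
          group
      _ = _ := by rw [← h1, ← mul_assoc, ← map_mul]
  have hP : ∀ w ∈ E.1, π g ^ p * π w * (π g ^ p)⁻¹ * (π w)⁻¹ = 1 := fun w hw => by
    simpa only [map_mul, map_inv, map_pow] using (hπ _).mpr (mem_cen.mp hgp w hw)
  have hR : ∀ x ∈ δ.range, x ^ r = 1 := by
    rintro _ ⟨w, rfl⟩
    exact (map_pow π _ r).symm.trans ((hπ _).mpr (hE _ (hm w w.2)))
  have hfix : ∀ x ∈ δ.range, π g * x = x * π g → x = 1 := by
    rintro _ ⟨w, rfl⟩ hx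
    have h1 := conj_pow_eq (π g) (π w) hx p
    rw [hP w w.2] at h1
    exact mem_of_coprime (H := ⊥) ((Nat.coprime_primes hr hp).mpr hrp) (hR _ ⟨w, rfl⟩) h1.symm
  have hK : δ.range.comap π ≤ E.1 := by
    rintro x ⟨w, hw⟩
    have h1 : (g * w * g⁻¹ * (w : G)⁻¹)⁻¹ * x ∈ A := QuotientGroup.eq.mp hw
    exact (mul_mem_cancel_left (inv_mem (hm w w.2))).mp (E.2.1.2.1.le h1)
  obtain ⟨s, hs1, hs2⟩ := sym_dim E ρ h0 hχ (K := δ.range.comap π) hK (by
      intro x hx hxc
      have hxE := hK hx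
      have h1 : x⁻¹ * (g⁻¹ * x * g⁻¹⁻¹) ∈ A := by
        refine hA.max (E.1 ⊓ centralizer E.1) inferInstance
          (inf_le_right.trans (centralizer_le fun _ h => h.1))
          (le_inf E.2.1.2.1.le (le_centralizer_iff.mp E.2.2))
          ⟨E.1.mul_mem (E.1.inv_mem hxE) (Normal.conj_mem inferInstance x hxE _),
            mem_centralizer_iff.mpr fun w hw => ?_⟩
        have h2 := hxc (g * w * g⁻¹ * w⁻¹) ⟨⟨w, hw⟩, rfl⟩
        have h3 := mem_centralizer_iff.mp hg _ (E.2.1.comm _ (inv_mem hw) x hxE)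
        calc w * (x⁻¹ * (g⁻¹ * x * g⁻¹⁻¹))
            = x⁻¹ * w * g⁻¹ * (g * (w⁻¹ * x * w⁻¹⁻¹ * x⁻¹)) * g⁻¹ * x * g := by group
          _ = x⁻¹ * g⁻¹ * (g * w * g⁻¹ * w⁻¹ * x) * w * g := by rw [← h3]; group
          _ = _ := by rw [h2]; group
      refine (hπ x).mp (hfix _ hx ?_)
      have h2 := (hπ _).mpr h1
      rw [map_mul, map_mul, map_mul, inv_inv, map_inv, map_inv, inv_mul_eq_one, mul_assoc,
        eq_inv_mul_iff_mul_eq] at h2
      exact h2)
  have hcard : Nat.card δ.range = s * s := by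
    have h1 := relIndex_ker (δ.range.comap π) π
    rw [QuotientGroup.ker_mk', map_comap_eq_self_of_surjective (QuotientGroup.mk'_surjective A)] at h1
    rw [← hs1, h1]
  obtain ⟨k, hk⟩ := (IsPGroup.iff_card (p := r) (G := δ.range)).mp
    fun x => ⟨1, Subtype.ext (by simpa using hR x x.2)⟩
  obtain ⟨i, -, rfl⟩ := (Nat.dvd_prime_pow hr).mp (Dvd.intro _ (hcard.symm.trans hk))
  let f : Function.End δ.range := fun x => ⟨π g * x * (π g)⁻¹, by
    obtain ⟨_, w, rfl⟩ := x
    refine ⟨⟨g * w * g⁻¹, Normal.conj_mem inferInstance _ w.2 g⟩, ?_⟩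
    change π _ = π g * π _ * (π g)⁻¹
    rw [← map_inv, ← map_mul, ← map_mul]
    congr 1
    group⟩
  have hf : ∀ (n : ℕ) x, ((f ^ n) x : G ⧸ A) = π g ^ n * x * (π g ^ n)⁻¹ := by
    intro n x
    induction n with
    | zero => simp only [pow_zero, inv_one, mul_one, one_mul]; rfl
    | succ n ih =>
      rw [pow_succ']
      change π g * ((f ^ n) x : G ⧸ A) * (π g)⁻¹ = _
      rw [ih, pow_succ']
      group
  have := Fintype.ofFinite δ.range
  have h1 := Equiv.Perm.card_fixedPoints_modEq (f := f) (p := p) (n := 1) (funext fun x => by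
    refine Subtype.ext ?_
    obtain ⟨_, w, rfl⟩ := x
    rw [pow_one, hf]
    exact mul_inv_eq_one.mp (hP _ (hm w w.2)))
  have h2 : Fintype.card f.fixedPoints = 1 := Fintype.card_eq_one_iff.mpr
    ⟨⟨1, Subtype.ext (by simp [f])⟩, fun x => Subtype.ext (Subtype.ext (hfix _ x.1.2
      (mul_inv_eq_iff_eq_mul.mp (congrArg Subtype.val x.2))))⟩
  rw [h2, ← Nat.card_eq_fintype_card, hcard, ← pow_add, ← two_mul] at h1
  obtain rfl : i = 0 := by
    by_contra hi
    exact h i (by omega) hs2 ((Nat.modEq_iff_dvd' (Nat.one_le_pow _ _ hr.pos)).mp h1.symm)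
  refine mem_cen.mpr fun e he => (hπ _).mp ?_
  exact mem_bot.mp ((card_eq_one.mp hcard).le ⟨⟨e, he⟩, rfl⟩)

theorem MaxAb.sym_step {G : Type} [Group G] [Finite G] [Group.IsSolvable G] {A : Subgroup G}
    [A.Normal] (hA : MaxAb A) (E : Sec A) {F : Type} [Field F] [IsAlgClosed F] {V : Type}
    [AddCommGroup V] [Module F V] [FiniteDimensional F V] (ρ : G →* End F V) {χ : A → F}
    (h0 : wt (fun a : A => ρ a) χ ≠ ⊥) (hχ : ∀ a, χ a = 1 → a = 1) {r p : ℕ} (hr : r.Prime)
    (hp : p.Prime) (hrp : r ≠ p) (hE : ∀ e ∈ E.1, e ^ r ∈ A)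
    (h : ∀ i, 1 ≤ i → r ^ i ≤ finrank F (wt (fun a : A => ρ a) χ) → ¬ p ∣ r ^ (2 * i) - 1) :
    centralizer (A : Set G) ≤ rel (piN {p}ᶜ) (cen A E.1) := by
  refine le_rel inferInstance fun a ha => ?_
  obtain ⟨m, hm, b, hb, h1⟩ := exists_pow_piN {p}ᶜ a
  rw [compl_compl] at hb
  obtain ⟨k, rfl⟩ := exists_pow_of_piN hb
  refine ⟨m, hm, ?_⟩
  replace h1 : (a ^ m) ^ p ^ k ∈ cen A E.1 := h1 ▸ one_mem _
  clear hb
  induction k with
  | zero => simpa using h1
  | succ k ih =>
    exact ih (sym_one hA E ρ h0 hχ hr hp hrp hE h (pow_mem (pow_mem ha m) _)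
      (by rwa [← pow_mul, ← pow_succ]))

end Pool.Agent.Work.MP_d3ab46_al
end

-- merged part: Pool.Agent.Work.MP_d3ab46_al.Odd.Up
section
/-!
The upper bound in characteristic `p` and the exact formulas.
-/

namespace Pool.Agent.Work.MP_d3ab46_al

open Subgroup Module Pool.Agent.Work.MP_36bee3_al

/-- The bound for the `p`-length of linear groups over closed fields of characteristic `p`. -/
def LP (p f : ℕ) : Prop :=
  ∀ (G : Type) [Group G] [Finite G] [Group.IsSolvable G] (K : Type) [Field K] [IsAlgClosed K]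
    [CharP K p] (V : Type) [AddCommGroup V] [Module K V] [FiniteDimensional K V]
    (ρ : G →* End K V) (l : ℕ),
    finrank K V < f * p ^ l → L {p} (rel (Submonoid.powers p) ρ.ker) l

variable (p : ℕ) [Fact p.Prime] (F : Type) [Field F] [Finite F] [CharP F p]

omit [Fact p.Prime] [Finite F] in
lemma upp_a {f : ℕ} (hL : LP p f) {H : Type} [Group H] [Finite H] [Group.IsSolvable H] {V : Type}
    [AddCommGroup V] [Module F V] [FiniteDimensional F V] (σ : H →* End F V) {l : ℕ}
    (h : finrank F V < f * p ^ l) : L {p} (rel (Submonoid.powers p) σ.ker) l := by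
  obtain ⟨V', _, _, _, ρ, h3, h4⟩ := exists_rep_aux (L := AlgebraicClosure F) σ
  have h5 := hL H _ V' ρ l (by rwa [h4])
  rwa [h3] at h5

lemma upp_b {f : ℕ} (hL : LP p f) {H : Type} [Group H] [Finite H] [Group.IsSolvable H] {V : Type}
    [AddCommGroup V] [Module F V] [FiniteDimensional F V] (σ : H →* End F V) (hσ : σ.ker = ⊥)
    {l : ℕ} (h : finrank F V - 1 < f * p ^ l) : L {p} (⊥ : Subgroup H) (l + 1) := by
  have hp : p.Prime := Fact.out
  by_cases hP : rel (Submonoid.powers p) (⊥ : Subgroup H) = ⊥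
  · have := upp_a p F hL σ (l := l + 1) (by
      have := Nat.mul_le_mul_left (f * p ^ l) hp.two_le
      rw [pow_succ, ← mul_assoc]
      omega)
    rwa [hσ, hP] at this
  set P := rel (Submonoid.powers p) (⊥ : Subgroup H) with hPd
  have hle : Submonoid.powers p ≤ piN {p} := powers_le_piN hp (Set.mem_singleton p)
  let W := Representation.invariants (σ.comp P.subtype)
  have hW : ∀ g, W ≤ W.comap (σ g) := Representation.le_comap_invariants σ P
  have hW1 : W ≠ ⊤ := fun h1 => hP (eq_bot_iff.mpr fun g hg => hσ.le (LinearMap.ext fun v =>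
    (Representation.mem_invariants _ v).mp (h1.ge Submodule.mem_top) ⟨g, hg⟩))
  have hW0 : W ≠ ⊥ := by
    have : Finite V := Module.finite_of_finite F
    let _ : MulAction P V := MulAction.compHom V (σ.comp P.subtype)
    obtain ⟨v, -, hv⟩ := SetLike.exists_of_lt (lt_top_iff_ne_top.mpr hW1)
    have h2 : addOrderOf v = p := addOrderOf_eq_prime
      (by rw [← Nat.cast_smul_eq_nsmul F, CharP.cast_eq_zero, zero_smul])
      (fun h0 => hv (h0 ▸ W.zero_mem))
    obtain ⟨w, hw, hw0⟩ := (isPGroup_of_pw (p := p) ((pw_rel _ (⊥ : Subgroup H)).mono hle)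
      ).exists_fixed_point_of_prime_dvd_card_of_fixed_point V (h2 ▸ addOrderOf_dvd_natCard v)
        (a := 0) fun g => map_zero (σ g)
    exact (Submodule.ne_bot_iff W).mpr ⟨w, (Representation.mem_invariants _ w).mpr hw, hw0.symm⟩
  have hsum := Submodule.finrank_quotient_add_finrank W
  have hlt : finrank F W < finrank F V := Submodule.finrank_lt hW1
  have hpos : 0 < finrank F W := by
    have : Nontrivial W := Submodule.nontrivial_iff_ne_bot.mpr hW0
    exact finrank_pos
  have h1 := upp_a p F hL (Representation.subrepresentation σ W hW) (l := l) (by omega)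
  have h2 := upp_a p F hL (Representation.quotient σ W hW) (l := l) (by omega)
  have h4 := (h1.inf h2).mono (red_le p σ W hW)
  rw [hσ] at h4
  exact L.of_rel (h4.mono (rel_mono_left hle _))

theorem maxLength_le_odd {f : ℕ} (hL : LP p f) (n l : ℕ) (h : n - 1 < f * p ^ l) :
    maxLength p F n ≤ l + 1 := by
  refine csSup_le' ?_
  rintro _ ⟨H, hH, rfl⟩
  refine pLength_le Fact.out
    (SH_all p _ H rfl _ _ (L_pLength Fact.out hH) fun K _ _ _ f hf => ?_)
  let σ : K →* Module.End F (Fin n → F) :=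
    (Matrix.toLinAlgEquiv' : Matrix (Fin n) (Fin n) F ≃ₐ[F] _).toRingEquiv.toRingHom.toMonoidHom.comp
      ((Units.coeHom _).comp (H.subtype.comp f))
  have hσ : σ.ker = ⊥ := (MonoidHom.ker_eq_bot_iff σ).mpr
    (Matrix.toLinAlgEquiv'.injective.comp (Units.val_injective.comp
      ((subtype_injective _).comp hf)))
  exact upp_b p F hL σ hσ (by rwa [Module.finrank_fin_fun])

theorem exact_nonfermat (hL : LP p p) (h1 : ∀ k n, p ^ k < n → k < maxLength p F n) (n : ℕ)
    (hn : 2 ≤ n) : maxLength p F n = 1 + Nat.log p (n - 1) := by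
  have hu := Nat.lt_pow_succ_log_self (Fact.out : p.Prime).one_lt (n - 1)
  have hd := Nat.pow_log_le_self p (show n - 1 ≠ 0 by omega)
  rw [add_comm]
  exact le_antisymm (maxLength_le_odd p F hL n _ (by rwa [← pow_succ'])) (h1 _ n (by omega))

theorem exact_fermat (hp : p ≠ 2) (hL : LP p (p - 1))
    (h1 : ∀ k n, p ^ k < n → k < maxLength p F n)
    (h2 : ∀ k n, (p - 1) * p ^ k < n → k + 1 < maxLength p F n) (n : ℕ) (hn : 2 ≤ n) :
    maxLength p F n = 1 + Nat.log p (p * (n - 1) / (p - 1)) := by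
  have h3 := (Fact.out : p.Prime).two_le
  have h4 : 0 < p - 1 := by omega
  have hu := Nat.lt_pow_succ_log_self (show 1 < p by omega) (p * (n - 1) / (p - 1))
  have hd := Nat.pow_log_le_self p (show p * (n - 1) / (p - 1) ≠ 0 from
    (Nat.div_pos ((Nat.sub_le p 1).trans (Nat.le_mul_of_pos_right p (by omega))) h4).ne')
  generalize Nat.log p (p * (n - 1) / (p - 1)) = l at hu hd
  rw [Nat.div_lt_iff_lt_mul h4, Nat.succ_eq_add_one, pow_succ', mul_assoc] at hu
  rw [Nat.le_div_iff_mul_le h4] at hd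
  rw [add_comm]
  refine le_antisymm (maxLength_le_odd p F hL n l ?_) ?_
  · exact mul_comm (p ^ l) _ ▸ lt_of_mul_lt_mul_left hu (Nat.zero_le _)
  obtain _ | k := l
  · exact h1 0 n (by rw [pow_zero]; omega)
  · rw [pow_succ', mul_assoc, mul_comm (p ^ k)] at hd
    have := Nat.le_of_mul_le_mul_left hd (by omega)
    exact h2 k n (by omega)

end Pool.Agent.Work.MP_d3ab46_al
end

-- merged part: Pool.Agent.Work.MP_d3ab46_al.Odd.Lp
section
/-!
The `p`-length of solvable linear groups in odd characteristic `p`.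
-/

namespace Pool.Agent.Work.MP_d3ab46_al

open Subgroup Module Pool.Agent.Work.MP_36bee3_al

variable {p : ℕ}

lemma PHp (hp : 3 ≤ p) (G : Type) [Group G] [Finite G] [Group.IsSolvable G] (Ω : Type) [Finite Ω]
    [MulAction G Ω] : L {p} (MulAction.toPermHom G Ω).ker (Nat.log p (Nat.card Ω)) :=
  PH_all hp (fun _ _ h => le_of_eq h.symm) _ G rfl Ω

lemma LHp (hp : 3 ≤ p) (G : Type) [Group G] [Finite G] [Group.IsSolvable G] (F : Type) [Field F]
    (c : ℕ) [Fact c.Prime] [CharP F c] (V : Type) [AddCommGroup V] [Module F V]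
    [FiniteDimensional F V] (ρ : G →* End F V) :
    L {p} (rel (Submonoid.powers c) ρ.ker) (Nat.log p (finrank F V) + 1) := by
  obtain ⟨V', _, _, _, ρ', h1, h2⟩ := exists_rep_aux (L := AlgebraicClosure F) ρ
  have h3 := LH_all (π := {p}) hp (fun _ _ h => le_of_eq h.symm) _ G rfl (AlgebraicClosure F) c V' ρ'
  rwa [h1, h2] at h3

lemma eq_of_dvd_sq_sub_one (hp : p.Prime) {s : ℕ} (h1 : 1 < s) (h2 : s < p) (h : p ∣ s ^ 2 - 1) :
    s + 1 = p := by
  rw [← one_pow 2, Nat.sq_sub_sq] at h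
  rcases hp.dvd_mul.mp h with h | h
  · have := Nat.le_of_dvd (by omega) h
    omega
  · have := Nat.le_of_dvd (by omega) h
    omega

lemma eq_two_of_dvd (hp : p.Prime) (hp3 : 3 ≤ p) {r i : ℕ} (hr : r.Prime) (hi : 1 ≤ i)
    (h2 : r ^ i < p) (h : p ∣ r ^ (2 * i) - 1) : r = 2 ∧ r ^ i + 1 = p := by
  rw [mul_comm, pow_mul] at h
  have h1 := eq_of_dvd_sq_sub_one hp (Nat.one_lt_pow (by omega) hr.one_lt) h2 h
  refine ⟨hr.eq_two_or_odd'.resolve_right fun h3 => ?_, h1⟩
  have h4 := (h3.pow (n := i)).add_one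
  rw [h1] at h4
  have := (hp.even_iff).mp h4
  omega

theorem TP_holds (hp : p.Prime) (hp3 : 3 ≤ p) (G : Type) [Group G] [Finite G] [Group.IsSolvable G]
    (V : Type) [AddCommGroup V] [Module (ZMod 2) V] [FiniteDimensional (ZMod 2) V]
    (ρ : G →* End (ZMod 2) V) :
    finrank (ZMod 2) V < 2 * p → L {p} (rel (Submonoid.powers 2) ρ.ker) 1 := by
  refine St_all (ZMod 2) 2 (P := fun d G _ D => d < 2 * p → L {p} D 1)
    ⟨fun h h1 hl => h1 (h.trans_lt hl), fun h h1 hl => (h1 hl).mono h,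
      fun h1 h2 hl => (h1 hl).inf (h2 hl), fun f h1 hl => (h1 hl).comap f,
      fun _ _ _ _ => L.top 1⟩ ?_ G V ρ
  intro G _ _ _ ih V _ _ _ _ ρ hρ hirr hl
  by_cases hD : Dec ρ
  · obtain ⟨K, _, t, e, hK, ht, he, hte, ⟨Ω, _, _, rfl, rfl⟩, ι, W, σ, hW, hσ⟩ := hD
    have h1 := PHp hp3 G Ω
    by_cases h : Nat.card Ω < p
    · rw [Nat.log_of_lt h] at h1
      have h2 : ∀ i, L {p} (rel (Submonoid.powers 2) (σ i).ker) 1 := fun i =>
        ih _ (card_lt_of_ne_top hK) _ (σ i) (by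
          rw [hW]
          nlinarith only [hp3, hl, hte, ht])
      exact L.add ((L.iInf (fun i => inferInstance) h2).mono
        (iInf_rel_subgroupOf _ _ (fun i => inferInstance) (hρ ▸ hσ))) h1
    · obtain rfl : e = 1 := by
        have : e < 2 := by nlinarith only [hl, hte, h]
        omega
      refine (h1.mono_left (Nat.lt_succ_iff.mp (Nat.log_lt_of_lt_pow (by omega)
        (by nlinarith only [hp3, hl, hte])))).mono fun k hk => self_le_rel _ _ ?_
      rw [← hρ]
      refine hσ (mem_iInf.mpr fun i => ?_ : (⟨k, hk⟩ : (MulAction.toPermHom G Ω).ker) ∈ _)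
      obtain ⟨v, hv, h2⟩ := finrank_eq_one_iff'.mp (hW i)
      obtain ⟨c, hc⟩ := h2 (σ i ⟨k, hk⟩ v)
      have h3 : ∀ c : ZMod 2, c ≠ 0 → c = 1 := by decide
      rw [h3 c fun h0 => rho_ne_zero (σ i) _ hv (by rw [← hc, h0, zero_smul]), one_smul] at hc
      refine LinearMap.ext fun w => ?_
      obtain ⟨a, rfl⟩ := h2 w
      rw [map_smul, ← hc, Module.End.one_apply]
  obtain ⟨A, hA⟩ := exists_maxAb G
  have := hA.normal
  by_cases hA0 : A = ⊥
  · exact (L.top 1).mono ((hA.top_le hA0).trans bot_le)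
  have hfp := (kernel_dec ρ hρ hirr A hA.comm).resolve_right hD
  obtain ⟨K, _, _, _, V', _, _, _, ρ', hd, hfp', hfr⟩ := exists_frob 2 ρ
  have : Nontrivial V' := nontrivial_of_finrank_pos (R := K) (hd ▸ finrank_pos)
  obtain ⟨χ, v, hv, hv0⟩ := exists_wt (fun a : A => ρ' a) (commute_rho ρ' hA.comm)
  have h0 : wt (fun a : A => ρ' a) χ ≠ ⊥ := (Submodule.ne_bot_iff _).mpr ⟨v, hv, hv0⟩
  have hχ := wt_inj ρ' (fun a ha h => hfp' a (hfp a ha h)) h0
  obtain ⟨ψ, hψ⟩ := wt_hom ρ' h0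
  have hψ' : ∀ a, ψ a = 1 → a = 1 := fun a h => hχ a (hψ a ▸ h)
  have h1 := hfr A χ hA.comm fun h => hA0 (eq_bot_iff.mpr fun a ha => by
    have h2 : ψ ⟨a, ha⟩ ^ 2 = ψ ⟨a, ha⟩ := by
      rw [hψ]
      exact congrFun h _
    rw [pow_two, ((Group.isUnit _).map ψ).mul_eq_left] at h2
    exact congrArg Subtype.val (hψ' _ h2))
  have h2 : ∀ E : Sec A, ∃ r : ℕ, r.Prime ∧ r ≠ 2 ∧ r ≠ p ∧ ∀ e ∈ E.1, e ^ r ∈ A := by
    intro E
    obtain ⟨r, hr, hr2, h3⟩ := hA.prime E (no_root 2 ψ hψ')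
    have : Fact r.Prime := ⟨hr⟩
    obtain ⟨B, _, _, _, τ, -, h5, h6⟩ := E.rep r h3
    obtain ⟨j, h7, h8⟩ := hA.dim E ρ' h0 hχ hr h5
    have h9 := Nat.le_self_pow (n := j) (by omega) r
    exact ⟨r, hr, hr2, by omega, h3⟩
  have h3 : centralizer (A : Set G) ≤ rel (piN {p}ᶜ) A := by
    refine le_trans (le_inf le_rfl (le_iInf fun E => ?_)) (hA.sec_le (piN {p}ᶜ) fun E => ?_)
    · obtain ⟨r, hr, hr2, hrp, h3⟩ := h2 E
      exact hA.sym_step E ρ' h0 hχ hr hp hrp h3 fun i hi h4 h5 =>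
        hr2 (eq_two_of_dvd hp hp3 hr hi (by omega) h5).1
    · obtain ⟨r, hr, -, hrp, h3⟩ := h2 E
      exact ⟨r, prime_mem_piN hr hrp, h3⟩
  have h4 : centralizer (A : Set G) ≤ rel (piN {p}) (rel (piN {p}ᶜ) ⊥) := by
    intro g hg
    have hn : (centralizer (A : Set G)).subtype.range.Normal := by
      rw [range_subtype]
      infer_instance
    have h4 := rel_le_of_central (π := {p}) (Z := A.subgroupOf (centralizer (A : Set G)))
      fun z hz => mem_center_iff.mpr fun g => Subtype.ext (mem_centralizer_iff.mp g.2 z hz).symm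
    rw [← comap_bot_of_injective _ (subtype_injective (centralizer (A : Set G))), subgroupOf,
      rel_comap _ _ (subtype_injective _) hn, rel_comap _ _ (subtype_injective _) hn,
      rel_comap _ _ (subtype_injective _) hn] at h4
    exact h4 (show (⟨g, hg⟩ : centralizer (A : Set G)) ∈ _ from h3 hg)
  refine L.mono (eq_top_iff.mpr ((le_rel_rel_of_comm (π := {p}) fun g _ h _ =>
    comm_mem_centralizer ψ hψ' g h).trans (rel_mono _ ?_))) bot_le
  exact (rel_mono _ h4).trans (rel_idem _ _).le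

lemma lp_three {j : ℕ} (hj : 3 ≤ j) : (2 * j - 1) ^ 2 ≤ 3 ^ j := by
  induction hj with
  | refl => norm_num
  | step h ih =>
    rename_i m
    obtain ⟨a, rfl⟩ := Nat.exists_eq_add_of_le h
    rw [show 2 * (3 + a) - 1 = 2 * a + 5 by omega] at ih
    rw [show 2 * (3 + a).succ - 1 = 2 * a + 7 by omega, pow_succ 3]
    linarith only [ih, Nat.zero_le a, Nat.zero_le (a ^ 2), sq_nonneg ↑a]

lemma lp_four {j : ℕ} (hj : 5 ≤ j) : (2 * j - 1) ^ 3 ≤ 4 ^ j := by
  induction hj with
  | refl => norm_num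
  | step h ih =>
    rename_i m
    obtain ⟨a, rfl⟩ := Nat.exists_eq_add_of_le h
    rw [show 2 * (5 + a) - 1 = 2 * a + 9 by omega] at ih
    rw [show 2 * (5 + a).succ - 1 = 2 * a + 11 by omega, pow_succ 4]
    linarith only [ih, Nat.zero_le a, Nat.zero_le (a ^ 2), Nat.zero_le (a ^ 3), sq_nonneg ↑a]

lemma lp_two {j : ℕ} (hj : 4 ≤ j) : j * j ≤ 2 ^ j := by
  induction hj with
  | refl => norm_num
  | step h ih =>
    rename_i m
    have : 4 ≤ m := h
    rw [pow_succ]
    nlinarith only [ih, this]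

lemma lp_arith (hp : p.Prime) (hp3 : 3 ≤ p) {f r j l : ℕ} (hf : f ≤ p) (h3 : p = 3 → f < p)
    (hr : 2 ≤ r) (hrp : r ≠ p) (h1 : p ^ (l + 1) ≤ 2 * j) (h2 : r ^ j < f * p ^ (l + 1)) :
    r = 2 ∧ l = 0 ∧ j < p := by
  have ho : p ^ (l + 1) ≤ 2 * j - 1 := by
    obtain ⟨a, ha⟩ := (hp.odd_of_ne_two (by omega)).pow (n := l + 1)
    omega
  have hx := Nat.le_self_pow (n := l + 1) (by omega) p
  have h4 : p ≠ 4 := fun h => absurd (h ▸ hp) (by norm_num)
  have hr2 : r = 2 := by
    by_contra h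
    by_cases h5 : p = 3
    · have h6 := Nat.pow_le_pow_left (show 2 * 2 ≤ r by omega) j
      have h7 := two_mul_le_two_pow (j := j) (by omega)
      have h8 := h3 h5
      rw [mul_pow] at h6
      nlinarith only [hf, h2, h6, hp3, h1, h5, hx, h7]
    · have h6 := Nat.pow_le_pow_left (show 3 ≤ r by omega) j
      have h7 := lp_three (j := j) (by omega)
      nlinarith only [h2, h6, h7, ho, hf, hx]
  subst hr2
  have hl : l = 0 := by
    by_contra h
    have h5 : p ^ 2 ≤ p ^ (l + 1) := Nat.pow_le_pow_right (by omega) (by omega)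
    have h6 := lp_four (j := j) (by nlinarith only [hp3, h1, h5])
    have h7 : 2 ^ j < p * p ^ (l + 1) := h2.trans_le (Nat.mul_le_mul_right _ hf)
    have h8 := Nat.pow_lt_pow_left h7 (n := 2) (by omega)
    have h9 := Nat.pow_le_pow_left ho 3
    rw [← pow_mul, mul_comm j, pow_mul, mul_pow] at h8
    have h10 := Nat.mul_le_mul_right ((p ^ (l + 1)) ^ 2) h5
    rw [← pow_succ'] at h10
    exact absurd ((h8.trans_le h10).trans_le (h9.trans h6)) (lt_irrefl _)
  subst hl
  refine ⟨rfl, rfl, lt_of_not_ge fun h => ?_⟩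
  have h5 := Nat.pow_le_pow_right (n := 2) (by omega) h
  rw [zero_add, pow_one] at h2
  by_cases h6 : p = 3
  · have := h3 h6
    subst h6
    omega
  · have := lp_two (j := p) (by omega)
    nlinarith only [h2, h5, this, hf]

theorem LP_holds [hp : Fact p.Prime] (hp2 : p ≠ 2) {f : ℕ} (hf : f ≤ p)
    (hF : ∀ i, 2 ^ i + 1 = p → f < p) : LP p f := by
  have hp3 : 3 ≤ p := by
    have := hp.out.two_le
    omega
  intro G _ _ _ F _ _ _ V _ _ _ ρ
  refine St_all F p (P := fun d G _ D => ∀ l, d < f * p ^ l → L {p} D l)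
    ⟨fun h h1 l hl => h1 l (h.trans_lt hl), fun h h1 l hl => (h1 l hl).mono h,
      fun h1 h2 l hl => (h1 l hl).inf (h2 l hl), fun f h1 l hl => (h1 l hl).comap f,
      fun _ _ _ l _ => L.top l⟩ ?_ G V ρ
  intro G _ _ _ ih V _ _ _ _ ρ hρ hirr l hl
  by_cases hD : Dec ρ
  · obtain ⟨K, _, t, e, hK, ht, he, hte, ⟨Ω, _, _, rfl, rfl⟩, ι, W, σ, hW, hσ⟩ := hD
    have h1 := PHp hp3 G Ω
    have hj := Nat.pow_log_le_self p (x := Nat.card Ω) (by omega)
    generalize Nat.log p (Nat.card Ω) = j at h1 hj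
    have hjl : j < l + 1 := (Nat.pow_lt_pow_iff_right (a := p) (by omega)).mp (by
      rw [pow_succ]
      nlinarith only [he, hte, hl, hj, hf, Nat.mul_le_mul_right (p ^ l) hf])
    obtain ⟨m, rfl⟩ : ∃ m, l = m + j := ⟨l - j, by omega⟩
    have h2 : ∀ i, L {p} (rel (Submonoid.powers p) (σ i).ker) m := fun i =>
      ih _ (card_lt_of_ne_top hK) _ (σ i) m (by
        rw [hW]
        rw [pow_add] at hl
        refine lt_of_mul_lt_mul_left (a := p ^ j) ?_ (Nat.zero_le _)
        nlinarith only [hte, hl, hj])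
    exact L.add ((L.iInf (fun i => inferInstance) h2).mono
      (iInf_rel_subgroupOf _ _ (fun i => inferInstance) (hρ ▸ hσ))) h1
  obtain ⟨A, hA⟩ := exists_maxAb G
  have := hA.normal
  obtain ⟨χ, hχ⟩ := (weight_dec ρ hirr A hA.comm).resolve_right hD
  have hsc : ∀ (a : A) (v : V), ρ a v = χ a • v := fun a v =>
    mem_wt.mp (hχ ▸ Submodule.mem_top : v ∈ wt (fun a : A => ρ a) χ) a
  have hinj := (MonoidHom.ker_eq_bot_iff ρ).mp hρ
  have h0 : wt (fun a : A => ρ a) χ ≠ ⊥ := hχ ▸ top_ne_bot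
  have h1 : ∀ a, χ a = 1 → a = 1 := fun a h =>
    Subtype.ext (hinj (LinearMap.ext fun v => by simp [hsc, h]))
  have h5 : (⊤ : Subgroup G) ≤ centralizer (A : Set G) := fun g _ =>
    mem_centralizer_iff.mpr fun a ha => hinj (LinearMap.ext fun v => by simp [hsc ⟨a, ha⟩])
  obtain ⟨ψ, hψ⟩ := wt_hom ρ h0
  have hroot := no_root p ψ fun a h => h1 a (hψ a ▸ h)
  have hle := Submodule.finrank_le (wt (fun a : A => ρ a) χ)
  have h3 : ∀ E : Sec A, L {p} (rel (piN {p}ᶜ) (cen A E.1)) l := by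
    intro E
    obtain ⟨r, hr, hrp, h3⟩ := hA.prime E hroot
    obtain _ | l := l
    · refine (L.top 0).mono (h5.trans (hA.sym_step E ρ h0 h1 hr hp.out hrp h3 fun i hi h4 h6 => ?_))
      rw [pow_zero, mul_one] at hl
      obtain ⟨rfl, h8⟩ := eq_two_of_dvd hp.out hp3 hr hi (by omega) h6
      have := hF i h8
      omega
    have : Fact r.Prime := ⟨hr⟩
    obtain ⟨B, _, _, _, τ, h4, h6, h7⟩ := E.rep r h3
    obtain ⟨j, h8, h9⟩ := hA.dim E ρ h0 h1 hr h6
    rw [← h4]
    refine L.mono ?_ (rel_mono_left (powers_le_piN hr hrp) τ.ker)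
    by_cases h : finrank (ZMod r) B < p ^ (l + 1)
    · exact (LHp hp3 G (ZMod r) r B τ).mono_left (Nat.log_lt_of_lt_pow h7 h)
    · obtain ⟨rfl, rfl, h10⟩ := lp_arith (l := l) hp.out hp3 hf (fun h => hF 1 h.symm) hr.two_le hrp
        (j := j) (by omega) (by omega)
      exact TP_holds hp.out hp3 G B τ (by omega)
  have h4 := hA.sec_le (piN {p}ᶜ) fun E => by
    obtain ⟨r, hr, hr2, h3⟩ := hA.prime E hroot
    exact ⟨r, prime_mem_piN hr hr2, h3⟩
  refine (L.of_rel' ((L.iInf (fun E => inferInstance) h3).mono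
    (((le_inf (le_top.trans h5) le_rfl).trans h4).trans ?_))).mono bot_le
  exact (rel_mono _ (le_rel_of_no_root hroot)).trans (rel_idem _ _).le

end Pool.Agent.Work.MP_d3ab46_al
end
end

-- merged part: Pool.Agent.Work.MP_d3ab46_al.Odd.Low
section
-- merged part: Pool.Agent.Work.MP_d3ab46_al.Hedge.Low
section
/-!
Lower bounds for the largest `2`-length in characteristic two, from affine wreath products.
-/

namespace Pool.Agent.Work.MP_d3ab46_al

open Subgroup Module Pool.Agent.Work.MP_36bee3_al SemidirectProduct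

/-- `X` acts faithfully by affine maps on a space of dimension `d`. -/
def low_IsAff (F : Type) [Field F] (d : ℕ) (X : Type) [Group X] : Prop :=
  ∃ (V : Type) (_ : AddCommGroup V) (_ : Module F V) (_ : FiniteDimensional F V)
    (ρ : X →* End F V) (c : X → V), finrank F V = d ∧ (∀ x y, c (x * y) = c x + ρ x (c y)) ∧
      ∀ x, ρ x = 1 → c x = 0 → x = 1

/-- A solvable affine group of dimension `d` whose `2`-length exceeds `l`. -/
def low_Good (F : Type) [Field F] (d l : ℕ) : Prop :=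
  ∃ (X : Type) (_ : Group X) (_ : Finite X) (_ : Group.IsSolvable X),
    low_IsAff F d X ∧ ¬ L {2} (⊥ : Subgroup X) l

lemma low_three : 3 ∈ piN ({2} : Set ℕ)ᶜ := prime_mem_piN Nat.prime_three (by simp)

lemma low_not_zero {G : Type} [Group G] {x : G} (h1 : x ≠ 1) (h2 : x ^ 2 = 1) :
    ¬ L {2} (⊥ : Subgroup G) 0 := by
  intro h
  have h3 : rel (piN ({2} : Set ℕ)ᶜ) (⊥ : Subgroup G) = ⊤ := h
  obtain ⟨m, hm, h4⟩ := pw_rel (piN ({2} : Set ℕ)ᶜ) (⊥ : Subgroup G) x (h3 ▸ mem_top x)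
  exact h1 (mem_bot.mp (mem_of_coprime (coprime_of_piN two_mem_piN hm) (mem_bot.mpr h2) h4))

lemma low_D3 : ¬ L {2} (rel (piN {2}) (⊥ : Subgroup (DihedralGroup 3))) 0 := by
  have key : ∀ x : DihedralGroup 3, x ≠ 1 →
      ∃ g, x * (g * x * g⁻¹) ≠ 1 ∧ (x * (g * x * g⁻¹)) ^ 3 = 1 := by decide
  intro h
  refine low_not_zero (x := DihedralGroup.sr 0) (by decide) (by decide) (h.mono fun x hx => ?_)
  by_contra hc
  obtain ⟨g, h1, h2⟩ := key x fun e => hc (mem_bot.mpr e)
  obtain ⟨m, hm, h4⟩ := pw_rel _ _ _ (mul_mem hx (Normal.conj_mem inferInstance x hx g))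
  exact h1 (mem_bot.mp (mem_of_coprime (coprime_of_piN hm low_three) h4 (mem_bot.mpr h2)))

section Wreath

variable {W Ω X : Type} [Group W] [Group X] {φ : W →* Equiv.Perm Ω}

lemma low_top (hφ : Function.Injective φ) (N : Subgroup (Wp X φ)) [hN : N.Normal] {T : Subgroup X}
    (hT : T ≠ ⊤) (h : ∀ f : Ω → X, inl f ∈ N → ∀ ω, f ω ∈ T) :
    N.map (rightHom : Wp X φ →* W) ≤ ⊥ := by
  classical
  obtain ⟨t, ht⟩ : ∃ t, t ∉ T := by
    by_contra hc
    push Not at hc
    exact hT ((eq_top_iff' T).mpr hc)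
  rintro _ ⟨g, hg, rfl⟩
  refine mem_bot.mpr (hφ ?_)
  change φ g.right = φ 1
  rw [map_one, ← inv_eq_one]
  ext ω
  by_contra hc
  set k : Wp X φ := g * inl (Pi.mulSingle ω t) * g⁻¹ * (inl (Pi.mulSingle ω t))⁻¹ with hk
  have hkN : k ∈ N := by
    rw [hk, mul_assoc, mul_assoc, ← mul_assoc (inl _)]
    exact mul_mem hg (hN.conj_mem _ (inv_mem hg) _)
  have hk1 : k = inl k.left := SemidirectProduct.ext rfl (by simp [hk])
  have h1 := h k.left (hk1 ▸ hkN) ω
  rw [hk, Wp.mul_left, Wp.mul_left, Wp.mul_left, Wp.inv_left, Wp.inv_left] at h1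
  simp only [left_inl, right_inl, mul_right, inv_right, mul_one, mul_inv_cancel, map_one,
    inv_one, Equiv.Perm.coe_one, id_eq, Pi.mulSingle_eq_same] at h1
  rw [Pi.mulSingle_eq_of_ne (show (φ g.right)⁻¹ ω ≠ ω from hc)] at h1
  exact ht (by simpa using h1)

lemma low_inl_normal : (inl : (Ω → X) →* Wp X φ).range.Normal := by
  rw [range_inl_eq_ker_rightHom]
  infer_instance

lemma low_top_U (hφ : Function.Injective φ) {l : ℕ} (h : ¬ L {2} (⊥ : Subgroup X) l) :
    (U {2} l (⊥ : Subgroup (Wp X φ))).map rightHom ≤ ⊥ := by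
  refine low_top hφ _ h fun f hf ω => ?_
  have h1 : f ∈ (U {2} l (⊥ : Subgroup (Wp X φ))).comap inl := hf
  rw [← U_comap l inl inl_injective low_inl_normal, comap_bot_of_injective _ inl_injective] at h1
  have h2 := map_U_le l (Pi.evalMonoidHom (fun _ : Ω => X) ω) (Function.surjective_eval ω) ⊥
    ⟨f, h1, rfl⟩
  rwa [Subgroup.map_bot] at h2

lemma low_top_rel (hφ : Function.Injective φ)
    (h : rel (piN {2}) (rel (piN ({2} : Set ℕ)ᶜ) (⊥ : Subgroup X)) ≠ ⊤) :
    (rel (piN {2}) (rel (piN ({2} : Set ℕ)ᶜ) (⊥ : Subgroup (Wp X φ)))).map rightHom ≤ ⊥ := by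
  refine low_top hφ _ h fun f hf ω => ?_
  have h1 : f ∈ (rel (piN {2}) (rel (piN ({2} : Set ℕ)ᶜ) (⊥ : Subgroup (Wp X φ)))).comap inl := hf
  rw [← rel_comap _ inl inl_injective low_inl_normal, ← rel_comap _ inl inl_injective
    low_inl_normal, comap_bot_of_injective _ inl_injective] at h1
  have hs : Function.Surjective (Pi.evalMonoidHom (fun _ : Ω => X) ω) := Function.surjective_eval ω
  have h2 := rel_mono _ (map_rel_le _ _ hs ⊥) (map_rel_le _ _ hs _ ⟨f, h1, rfl⟩)
  rwa [Subgroup.map_bot] at h2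

lemma low_wreath {F : Type} [Field F] [Finite Ω] (hφ : Function.Injective φ) {d : ℕ} (hd : 0 < d)
    (h : low_IsAff F d X) : low_IsAff F (Nat.card Ω * d) (Wp X φ) := by
  classical
  obtain ⟨V, _, _, _, ρ, c, h1, h2, h3⟩ := h
  have := Fintype.ofFinite Ω
  let ρ' : Wp X φ →* End F (Ω → V) :=
    { toFun := fun g => LinearMap.pi fun ω => ρ (g.left ω) ∘ₗ LinearMap.proj ((φ g.right)⁻¹ ω)
      map_one' := LinearMap.ext fun v => funext fun ω => by simp
      map_mul' := fun g h => LinearMap.ext fun v => funext fun ω => by simp [Wp.mul_left] }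
  refine ⟨Ω → V, inferInstance, inferInstance, inferInstance, ρ', fun g ω => c (g.left ω), ?_,
    fun g h => funext fun ω => h2 _ _, fun g hg hc => ?_⟩
  · rw [finrank_pi_fintype, Finset.sum_const, h1, Finset.card_univ, smul_eq_mul,
      Nat.card_eq_fintype_card]
  · have h4 : ∀ (v : Ω → V) (ω : Ω), ρ (g.left ω) (v ((φ g.right)⁻¹ ω)) = v ω := fun v ω =>
      congrFun (LinearMap.congr_fun hg v) ω
    have : Nontrivial V := Module.nontrivial_of_finrank_pos (R := F) (h1 ▸ hd)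
    obtain ⟨u, hu⟩ := exists_ne (0 : V)
    refine SemidirectProduct.ext (funext fun ω => h3 _ (LinearMap.ext fun v => h4 (fun _ => v) ω)
      (congrFun hc ω)) (hφ ?_)
    change φ g.right = φ 1
    rw [map_one, ← inv_eq_one]
    ext ω
    by_contra hne
    have h5 := h4 (Pi.single ω u) ω
    rw [Pi.single_eq_of_ne (show (φ g.right)⁻¹ ω ≠ ω from hne), map_zero, Pi.single_eq_same] at h5
    exact hu h5.symm

end Wreath

/-- A linear action as an action by automorphisms of the translation group. -/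
def low_aut {F H V : Type} [Field F] [Group H] [AddCommGroup V] [Module F V] (ρ : H →* End F V) :
    H →* MulAut (Multiplicative V) where
  toFun h :=
    { toFun := fun v => Multiplicative.ofAdd (ρ h v.toAdd)
      invFun := fun v => Multiplicative.ofAdd (ρ h⁻¹ v.toAdd)
      left_inv := fun v => by simp [← Module.End.mul_apply, ← map_mul]
      right_inv := fun v => by simp [← Module.End.mul_apply, ← map_mul]
      map_mul' := fun a b => by simp }
  map_one' := by ext v; simp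
  map_mul' a b := by ext v; simp

variable (F : Type) [Field F] [Finite F] [CharP F 2]

lemma low_AG {H V : Type} [Group H] [Finite H] [Group.IsSolvable H] [AddCommGroup V] [Module F V]
    [FiniteDimensional F V] (ρ : H →* End F V) (hρ : Function.Injective ρ) :
    ∃ (X : Type) (_ : Group X) (_ : Finite X) (_ : Group.IsSolvable X) (q : X →* H),
      low_IsAff F (finrank F V) X ∧ Function.Surjective q ∧
      (rel (piN {2}) (rel (piN ({2} : Set ℕ)ᶜ) (⊥ : Subgroup X))).map q ≤ rel (piN {2}) ⊥ := by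
  have : Finite V := Module.finite_of_finite F
  refine ⟨Multiplicative V ⋊[low_aut ρ] H, inferInstance,
    Finite.of_equiv _ SemidirectProduct.equivProd.symm,
    Group.isSolvable_of_ker_le_range inl rightHom range_inl_eq_ker_rightHom.ge, rightHom,
    ⟨V, inferInstance, inferInstance, inferInstance, ρ.comp rightHom, fun g => g.left.toAdd, rfl,
      fun _ _ => rfl, fun g h1 h2 => SemidirectProduct.ext h2 (hρ (h1.trans (map_one ρ).symm))⟩,
    rightHom_surjective, (map_rel_le _ _ rightHom_surjective _).trans (rel_mono _ ?_)⟩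
  have hA : Pw (piN {2}) ⊥ (rightHom : Multiplicative V ⋊[low_aut ρ] H →* H).ker := by
    intro g hg
    refine ⟨2, two_mem_piN, mem_bot.mpr ?_⟩
    have h1 : g = inl g.left := SemidirectProduct.ext rfl hg
    have h2 : g.left ^ 2 = 1 := by
      change 2 • g.left.toAdd = 0
      rw [← Nat.cast_smul_eq_nsmul F, CharP.cast_eq_zero, zero_smul]
    rw [h1, ← map_pow, h2, map_one]
  rintro _ ⟨g, hg, rfl⟩
  refine mem_bot.mpr (hρ ((LinearMap.ext fun v => ?_).trans (map_one ρ).symm))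
  have h1 := congrArg (fun t => (SemidirectProduct.left t).toAdd)
    (commute_of_normal_of_disjoint _ _ inferInstance inferInstance
      (disjoint_of_pw hA (pw_rel _ _)) (inl (Multiplicative.ofAdd v)) g rfl hg).eq
  have h2 : v + ρ 1 g.left.toAdd = g.left.toAdd + ρ g.right v := h1
  rw [map_one, Module.End.one_apply, add_comm] at h2
  exact (add_left_cancel h2).symm

lemma low_lt {d l n : ℕ} (h : low_Good F d l) (hn : d < n) : l < maxLength 2 F n := by
  obtain ⟨X, _, _, _, ⟨V, _, _, _, ρ, c, h1, h2, h3⟩, hl⟩ := h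
  have hc : c 1 = 0 := by simpa using h2 1 1
  let σ : X →* End F (V × F × (Fin (n - d - 1) → F)) :=
    { toFun := fun x =>
        { toFun := fun u => (ρ x u.1 + u.2.1 • c x, u.2)
          map_add' := fun u v => Prod.ext (by simp [add_smul, add_add_add_comm]) rfl
          map_smul' := fun t u => Prod.ext (by simp [mul_smul]) rfl }
      map_one' := LinearMap.ext fun u => Prod.ext (by simp [hc]) rfl
      map_mul' := fun x y => LinearMap.ext fun u => Prod.ext (by
        simp [h2, add_assoc, add_comm (u.2.1 • c x)]) rfl }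
  have hσ : Function.Injective σ := by
    rw [injective_iff_map_eq_one]
    intro x hx
    have h4 : ∀ u : V × F × (Fin (n - d - 1) → F), ρ x u.1 + u.2.1 • c x = u.1 := fun u =>
      congrArg Prod.fst (LinearMap.congr_fun hx u)
    exact h3 x (LinearMap.ext fun v => by simpa using h4 (v, 0, 0)) (by simpa using h4 (0, 1, 0))
  have hr : finrank F (V × F × (Fin (n - d - 1) → F)) = n := by
    rw [finrank_prod, finrank_prod, finrank_self, finrank_fin_fun, h1]
    omega
  let e := LinearMap.toMatrixAlgEquiv (finBasisOfFinrankEq F _ hr)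
  let f : X →* GL (Fin n) F := (e.toMulEquiv.toMonoidHom.comp σ).toHomUnits
  have hf : Function.Injective f := fun a b hab => hσ (e.injective (congrArg Units.val hab))
  have : Group.IsSolvable f.range := Group.isSolvable_of_surjective f.rangeRestrict_surjective
  have h4 : IsPSolvable 2 f.range := isPSolvable_of_solvable Nat.prime_two
  have h5 := (L_pLength Nat.prime_two h4).comap f.rangeRestrict
  rw [comap_bot_of_injective _ (MonoidHom.rangeRestrict_injective_iff.mpr hf)] at h5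
  refine lt_of_lt_of_le (lt_of_not_ge fun hle => hl (h5.mono_left hle))
    (le_csSup ⟨Nat.log (max 2 3) n + 2, ?_⟩ ⟨_, h4, rfl⟩)
  rintro _ ⟨H, h, rfl⟩
  exact pLength_le_log 2 F n H h

omit [Finite F] [CharP F 2] in
lemma low_step {d l : ℕ} (hd : 0 < d) (h : low_Good F d l) : low_Good F (3 * d) (l + 1) := by
  obtain ⟨X, _, _, _, h1, h2⟩ := h
  have hφ := dact_injective (b := 3) le_rfl
  have h3 := low_wreath hφ hd h1
  rw [Nat.card_zmod] at h3
  refine ⟨Wp X (dact 3), inferInstance, inferInstance, inferInstance, h3, fun h => low_D3 ?_⟩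
  have h4 : L {2} (rel (piN {2}) (U {2} l (⊥ : Subgroup (Wp X (dact 3))))) 0 := h
  exact (h4.map rightHom rightHom_surjective).mono
    ((map_rel_le _ _ rightHom_surjective _).trans (rel_mono _ (low_top_U hφ h2)))

omit [Finite F] [CharP F 2] in
lemma low_iter {d l : ℕ} (hd : 0 < d) (h : low_Good F d l) (k : ℕ) :
    low_Good F (d * 3 ^ k) (k + l) := by
  induction k with
  | zero => simpa using h
  | succ k ih =>
    have := low_step F (by positivity) ih
    rwa [mul_left_comm, ← pow_succ', add_right_comm] at this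

lemma low_two : low_Good F 2 1 := by
  let μ : DihedralGroup 3 →* Matrix (Fin 2) (Fin 2) (ZMod 2) :=
    { toFun := fun g => match g with
        | .r i => !![0, 1; 1, 1] ^ i.val
        | .sr i => !![0, 1; 1, 0] * !![0, 1; 1, 1] ^ i.val
      map_one' := by decide
      map_mul' := by decide }
  have hμ : Function.Injective μ := (injective_iff_map_eq_one μ).mpr (by decide)
  let ρ : DihedralGroup 3 →* End F (Fin 2 → F) :=
    (Matrix.toLinAlgEquiv' : Matrix (Fin 2) (Fin 2) F ≃ₐ[F] _).toMulEquiv.toMonoidHom.comp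
      ((ZMod.castHom (dvd_refl 2) F).mapMatrix.toMonoidHom.comp μ)
  have hρ : Function.Injective ρ := Matrix.toLinAlgEquiv'.injective.comp
    ((Matrix.map_injective (ZMod.castHom (dvd_refl 2) F).injective).comp hμ)
  obtain ⟨X, _, _, _, q, h1, h2, h3⟩ := low_AG F ρ hρ
  rw [finrank_fin_fun] at h1
  exact ⟨X, inferInstance, inferInstance, inferInstance, h1,
    fun h => low_D3 ((h.rel_rel.map q h2).mono h3)⟩

lemma low_four (hF : Nat.card F ≠ 2) : low_Good F 4 2 := by
  let ρ : Fˣ →* End F F := (Algebra.lmul F F).toMonoidHom.comp (Units.coeHom F)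
  have hρ : Function.Injective ρ := Algebra.lmul_injective.comp Units.val_injective
  obtain ⟨X, _, _, _, q, h1, h2, h3⟩ := low_AG F ρ hρ
  rw [finrank_self] at h1
  have hT : rel (piN {2}) (rel (piN ({2} : Set ℕ)ᶜ) (⊥ : Subgroup X)) ≠ ⊤ := by
    intro h
    rw [h, map_top_of_surjective q h2] at h3
    refine hF ((Nat.card_eq_two_iff' (0 : F)).mpr ⟨1, one_ne_zero, fun y hy => ?_⟩)
    obtain ⟨m, hm, h4⟩ := pw_rel _ _ (Units.mk0 y hy) (h3 (mem_top _))
    obtain ⟨k, rfl⟩ := exists_pow_of_piN hm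
    have h5 : y ^ 2 ^ k = 1 := congrArg Units.val (mem_bot.mp h4)
    exact (iterateFrobenius F 2 k).injective (h5.trans (map_one _).symm)
  obtain ⟨W, _, _, _, ⟨V, _, _, _, τ, c, k1, k2, k3⟩, hW⟩ := low_two (ZMod 2)
  have hc : c 1 = 0 := by simpa using k2 1 1
  have : Finite V := Module.finite_of_finite (ZMod 2)
  let φ : W →* Equiv.Perm V := MonoidHom.toHomPerm
    { toFun := fun g v => τ g v + c g
      map_one' := funext fun v => by simp [hc, Function.End.one_def]
      map_mul' := fun g h => funext fun v => by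
        change _ = τ g (τ h v + c h) + c g
        simp [k2, add_assoc, add_comm (c g)] }
  have hφ : Function.Injective φ := by
    rw [injective_iff_map_eq_one]
    intro g hg
    have h4 : ∀ v, τ g v + c g = v := fun v => DFunLike.congr_fun hg v
    have h5 : c g = 0 := by simpa using h4 0
    exact k3 g (LinearMap.ext fun v => by simpa [h5] using h4 v) h5
  have h4 := low_wreath hφ one_pos h1
  rw [natCard_eq_pow_finrank (K := ZMod 2), Nat.card_zmod, k1] at h4
  exact ⟨Wp X φ, inferInstance, inferInstance, inferInstance, h4, fun h =>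
    hW ((h.rel_rel.map rightHom rightHom_surjective).mono (low_top_rel hφ hT))⟩

theorem lt_maxLength_one (n : ℕ) (hn : 2 ≤ n) : 0 < maxLength 2 F n := by
  refine low_lt F (d := 1) ⟨Multiplicative F, inferInstance, inferInstance, inferInstance,
    ⟨F, inferInstance, inferInstance, inferInstance, 1, Multiplicative.toAdd, finrank_self F,
      fun _ _ => rfl, fun _ _ h => h⟩,
    low_not_zero (x := Multiplicative.ofAdd 1) (one_ne_zero (α := F)) ?_⟩ hn
  change 2 • (1 : F) = 0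
  rw [nsmul_one, CharP.cast_eq_zero]

theorem lt_maxLength_two (k n : ℕ) (hn : 2 * 3 ^ k < n) : k + 1 < maxLength 2 F n :=
  low_lt F (low_iter F two_pos (low_two F) k) hn

theorem lt_maxLength_four (hF : Nat.card F ≠ 2) (k n : ℕ) (hn : 4 * 3 ^ k < n) :
    k + 2 < maxLength 2 F n :=
  low_lt F (low_iter F four_pos (low_four F hF) k) hn

end Pool.Agent.Work.MP_d3ab46_al
end

-- merged part: Pool.Agent.Work.MP_d3ab46_al.Odd.Low
section
/-!
Lower bounds for the largest `p`-length in odd characteristic, from affine wreath products.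
-/

namespace Pool.Agent.Work.MP_d3ab46_al

open Subgroup Module Pool.Agent.Work.MP_36bee3_al SemidirectProduct

variable (p : ℕ) [Fact p.Prime] (F : Type) [Field F] [Finite F] [CharP F p]

/-- A solvable affine group of dimension `d` that is not a `p`-extension of the `l`-th term. -/
def lowp_Good (p : ℕ) (F : Type) [Field F] (d l : ℕ) : Prop :=
  ∃ (X : Type) (_ : Group X) (_ : Finite X) (_ : Group.IsSolvable X),
    low_IsAff F d X ∧ rel (piN {p}) (U {p} l (⊥ : Subgroup X)) ≠ ⊤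

lemma lowp_self : p ∈ piN {p} := prime_mem_piN Fact.out (Set.mem_singleton p)

omit [Fact p.Prime] in
lemma lowp_two (hp : p ≠ 2) : 2 ∈ piN ({p} : Set ℕ)ᶜ := prime_mem_piN Nat.prime_two hp.symm

lemma lowp_D (hp : p ≠ 2) :
    rel (piN {p}) (rel (piN ({p} : Set ℕ)ᶜ) (⊥ : Subgroup (DihedralGroup p))) ≠ ⊤ := by
  intro h
  have h1 : ∀ i, DihedralGroup.sr i ∈ rel (piN ({p} : Set ℕ)ᶜ) (⊥ : Subgroup (DihedralGroup p)) := by
    intro i
    obtain ⟨m, hm, h2⟩ := pw_rel _ _ (DihedralGroup.sr i) (h ▸ mem_top _)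
    refine mem_of_coprime (coprime_of_piN hm (lowp_two p hp)) h2 ?_
    rw [pow_two, DihedralGroup.sr_mul_self]
    exact one_mem _
  obtain ⟨m, hm, h2⟩ := pw_rel _ _ _ (mul_mem (h1 0) (h1 1))
  have h3 := mem_of_coprime (coprime_of_piN (lowp_self p) hm) (mem_bot.mpr (by simp)) h2
  exact one_ne_zero ((sub_zero (1 : ZMod p)).symm.trans (DihedralGroup.r.inj (mem_bot.mp h3)))

lemma lowp_AG {H V : Type} [Group H] [Finite H] [Group.IsSolvable H] [AddCommGroup V] [Module F V]
    [FiniteDimensional F V] (ρ : H →* End F V) (hρ : Function.Injective ρ) :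
    ∃ (X : Type) (_ : Group X) (_ : Finite X) (_ : Group.IsSolvable X) (q : X →* H),
      low_IsAff F (finrank F V) X ∧ Function.Surjective q ∧
      (rel (piN {p}) (rel (piN ({p} : Set ℕ)ᶜ) (⊥ : Subgroup X))).map q ≤ rel (piN {p}) ⊥ := by
  have : Finite V := Module.finite_of_finite F
  refine ⟨Multiplicative V ⋊[low_aut ρ] H, inferInstance,
    Finite.of_equiv _ SemidirectProduct.equivProd.symm,
    Group.isSolvable_of_ker_le_range inl rightHom range_inl_eq_ker_rightHom.ge, rightHom,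
    ⟨V, inferInstance, inferInstance, inferInstance, ρ.comp rightHom, fun g => g.left.toAdd, rfl,
      fun _ _ => rfl, fun g h1 h2 => SemidirectProduct.ext h2 (hρ (h1.trans (map_one ρ).symm))⟩,
    rightHom_surjective, (map_rel_le _ _ rightHom_surjective _).trans (rel_mono _ ?_)⟩
  have hA : Pw (piN {p}) ⊥ (rightHom : Multiplicative V ⋊[low_aut ρ] H →* H).ker := by
    intro g hg
    refine ⟨p, lowp_self p, mem_bot.mpr ?_⟩
    have h1 : g = inl g.left := SemidirectProduct.ext rfl hg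
    have h2 : g.left ^ p = 1 := by
      change p • g.left.toAdd = 0
      rw [← Nat.cast_smul_eq_nsmul F, CharP.cast_eq_zero, zero_smul]
    rw [h1, ← map_pow, h2, map_one]
  rintro _ ⟨g, hg, rfl⟩
  refine mem_bot.mpr (hρ ((LinearMap.ext fun v => ?_).trans (map_one ρ).symm))
  have h1 := congrArg (fun t => (SemidirectProduct.left t).toAdd)
    (commute_of_normal_of_disjoint _ _ inferInstance inferInstance
      (disjoint_of_pw hA (pw_rel _ _)) (inl (Multiplicative.ofAdd v)) g rfl hg).eq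
  have h2 : v + ρ 1 g.left.toAdd = g.left.toAdd + ρ g.right v := h1
  rw [map_one, Module.End.one_apply, add_comm] at h2
  exact (add_left_cancel h2).symm

lemma lowp_lt {d l n : ℕ} (h : lowp_Good p F d l) (hn : d < n) : l < maxLength p F n := by
  obtain ⟨X, _, _, _, ⟨V, _, _, _, ρ, c, h1, h2, h3⟩, hl⟩ := h
  have hc : c 1 = 0 := by simpa using h2 1 1
  let σ : X →* End F (V × F × (Fin (n - d - 1) → F)) :=
    { toFun := fun x =>
        { toFun := fun u => (ρ x u.1 + u.2.1 • c x, u.2)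
          map_add' := fun u v => Prod.ext (by simp [add_smul, add_add_add_comm]) rfl
          map_smul' := fun t u => Prod.ext (by simp [mul_smul]) rfl }
      map_one' := LinearMap.ext fun u => Prod.ext (by simp [hc]) rfl
      map_mul' := fun x y => LinearMap.ext fun u => Prod.ext (by
        simp [h2, add_assoc, add_comm (u.2.1 • c x)]) rfl }
  have hσ : Function.Injective σ := by
    rw [injective_iff_map_eq_one]
    intro x hx
    have h4 : ∀ u : V × F × (Fin (n - d - 1) → F), ρ x u.1 + u.2.1 • c x = u.1 := fun u =>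
      congrArg Prod.fst (LinearMap.congr_fun hx u)
    exact h3 x (LinearMap.ext fun v => by simpa using h4 (v, 0, 0)) (by simpa using h4 (0, 1, 0))
  have hr : finrank F (V × F × (Fin (n - d - 1) → F)) = n := by
    rw [finrank_prod, finrank_prod, finrank_self, finrank_fin_fun, h1]
    omega
  let e := LinearMap.toMatrixAlgEquiv (finBasisOfFinrankEq F _ hr)
  let f : X →* GL (Fin n) F := (e.toMulEquiv.toMonoidHom.comp σ).toHomUnits
  have hf : Function.Injective f := fun a b hab => hσ (e.injective (congrArg Units.val hab))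
  have : Group.IsSolvable f.range := Group.isSolvable_of_surjective f.rangeRestrict_surjective
  have h4 : IsPSolvable p f.range := isPSolvable_of_solvable Fact.out
  have h5 := (L_pLength Fact.out h4).comap f.rangeRestrict
  rw [comap_bot_of_injective _ (MonoidHom.rangeRestrict_injective_iff.mpr hf)] at h5
  refine lt_of_lt_of_le (lt_of_not_ge fun hle =>
    hl (eq_top_iff.mpr ((h5.mono_left hle).ge.trans (self_le_rel _ _))))
    (le_csSup ⟨Nat.log (max p 3) n + 2, ?_⟩ ⟨_, h4, rfl⟩)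
  rintro _ ⟨H, h, rfl⟩
  exact pLength_le_log p F n H h

omit [Finite F] [CharP F p] in
lemma lowp_step (hp : p ≠ 2) {d l : ℕ} (hd : 0 < d) (h : lowp_Good p F d l) :
    lowp_Good p F (p * d) (l + 1) := by
  obtain ⟨X, _, _, _, h1, h2⟩ := h
  have hφ := dact_injective (b := p) (lt_of_le_of_ne (Fact.out : p.Prime).two_le hp.symm)
  have h3 := low_wreath hφ hd h1
  rw [Nat.card_zmod] at h3
  refine ⟨Wp X (dact p), inferInstance, inferInstance, inferInstance, h3, fun h => lowp_D p hp ?_⟩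
  have h4 : (rel (piN {p}) (U {p} l (⊥ : Subgroup (Wp X (dact p))))).map rightHom ≤ ⊥ := by
    refine low_top hφ _ h2 fun f hf ω => ?_
    have h5 : f ∈ (rel (piN {p}) (U {p} l (⊥ : Subgroup (Wp X (dact p))))).comap inl := hf
    rw [← rel_comap _ inl inl_injective low_inl_normal, ← U_comap l inl inl_injective
      low_inl_normal, comap_bot_of_injective _ inl_injective] at h5
    have hs : Function.Surjective (Pi.evalMonoidHom (fun _ : ZMod p => X) ω) :=
      Function.surjective_eval ω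
    have h6 := rel_mono _ (map_U_le l _ hs ⊥) (map_rel_le _ _ hs _ ⟨f, h5, rfl⟩)
    rwa [Subgroup.map_bot] at h6
  rw [eq_top_iff, ← map_top_of_surjective (rightHom : Wp X (dact p) →* _) rightHom_surjective, ← h]
  exact (map_rel_le _ _ rightHom_surjective _).trans
    (rel_mono _ ((map_rel_le _ _ rightHom_surjective _).trans (rel_mono _ h4)))

omit [Finite F] [CharP F p] in
lemma lowp_iter (hp : p ≠ 2) {d l : ℕ} (hd : 0 < d) (h : lowp_Good p F d l) (k : ℕ) :
    lowp_Good p F (d * p ^ k) (k + l) := by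
  induction k with
  | zero => simpa using h
  | succ k ih =>
    have := lowp_step p F hp (mul_pos hd (pow_pos (Fact.out : p.Prime).pos k)) ih
    rwa [mul_left_comm, ← pow_succ', add_right_comm] at this

theorem lt_maxLength_odd (hp : p ≠ 2) (k n : ℕ) (hn : p ^ k < n) : k < maxLength p F n := by
  let ρ : Fˣ →* End F F := (Algebra.lmul F F).toMonoidHom.comp (Units.coeHom F)
  have hρ : Function.Injective ρ := Algebra.lmul_injective.comp Units.val_injective
  obtain ⟨X, _, _, _, q, h1, h2, h3⟩ := lowp_AG p F ρ hρ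
  rw [finrank_self] at h1
  refine lowp_lt p F (lowp_iter p F hp (l := 0) one_pos ⟨X, inferInstance, inferInstance,
    inferInstance, h1, fun h => ?_⟩ k) (by rwa [one_mul])
  rw [show rel (piN {p}) (rel (piN ({p} : Set ℕ)ᶜ) (⊥ : Subgroup X)) = ⊤ from h,
    map_top_of_surjective q h2] at h3
  obtain ⟨m, hm, h4⟩ := pw_rel _ _ (-1 : Fˣ) (h3 (mem_top _))
  have h5 := mem_of_coprime (coprime_of_piN hm (lowp_two p hp)) h4 (mem_bot.mpr neg_one_sq)
  have : Fact (2 < p) := ⟨lt_of_le_of_ne (Fact.out : p.Prime).two_le hp.symm⟩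
  exact CharP.neg_one_ne_one F p (congrArg Units.val (mem_bot.mp h5))

theorem lt_maxLength_base (hp : p ≠ 2) {X V : Type} [Group X] [Finite X] [Group.IsSolvable X]
    [AddCommGroup V] [Module (ZMod p) V] [FiniteDimensional (ZMod p) V]
    (ρ : X →* End (ZMod p) V) (hρ : Function.Injective ρ) (hd : 0 < finrank (ZMod p) V)
    (h : rel (piN {p}) (rel (piN {p}ᶜ) (rel (piN {p}) (⊥ : Subgroup X))) ≠ ⊤) (k n : ℕ)
    (hn : finrank (ZMod p) V * p ^ k < n) : k + 1 < maxLength p F n := by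
  let _ := ZMod.algebra F p
  obtain ⟨V', _, _, _, ρ', k1, k2⟩ := exists_rep_aux (L := F) ρ
  obtain ⟨X', _, _, _, q, h1, h2, h3⟩ := lowp_AG p F ρ'
    ((MonoidHom.ker_eq_bot_iff _).mp (k1.trans ((MonoidHom.ker_eq_bot_iff _).mpr hρ)))
  rw [k2] at h1
  refine lowp_lt p F (lowp_iter p F hp (l := 1) hd ⟨X', inferInstance, inferInstance,
    inferInstance, h1, fun h4 => h ?_⟩ k) hn
  rw [eq_top_iff, ← map_top_of_surjective q h2, ← h4]
  exact (map_rel_le _ _ h2 _).trans (rel_mono _ ((map_rel_le _ _ h2 _).trans (rel_mono _ h3)))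

end Pool.Agent.Work.MP_d3ab46_al
end
end

-- merged part: Pool.Agent.Work.MP_d3ab46_al.J.Parts
section
/-!
The exact value of the largest `p`-length of a `p`-solvable subgroup of `GL(n, F)` for every finite
field `F` of characteristic `p` and every `n ≥ 2`.
-/

namespace Pool.Agent.Work.MP_d3ab46_al.J.ExactValue

open Pool.Agent.Work.MP_d3ab46_al

theorem result (p : ℕ) [Fact p.Prime] (F : Type) [Field F] [Finite F] [CharP F p] (n : ℕ)
    (hn : 2 ≤ n) :
    maxLength p F n = 1 + Nat.log (max p 3)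
      (if Nat.card F = 2 then 3 * (n - 1) / 2
        else if p = 2 then 9 * (n - 1) / 4
        else if ∃ m < p, 2 ^ m + 1 = p then p * (n - 1) / (p - 1)
        else n - 1) := by
  by_cases hp : p = 2
  · subst hp
    rw [if_pos rfl]
    exact exact_of F T2_holds L2_holds (lt_maxLength_one F) (lt_maxLength_two F)
      (lt_maxLength_four F) n hn
  have hp' : p.Prime := Fact.out
  have h3 : 3 ≤ p := by
    have := hp'.two_le
    omega
  have hF : Nat.card F ≠ 2 := fun h => by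
    have := Fintype.ofFinite F
    have h1 := Nat.cast_card_eq_zero F
    rw [← Nat.card_eq_fintype_card, h, CharP.cast_eq_zero_iff F p] at h1
    exact hp ((Nat.prime_dvd_prime_iff_eq hp' Nat.prime_two).mp h1)
  rw [if_neg hF, if_neg hp, max_eq_left h3]
  split_ifs with h
  · obtain ⟨m, -, hm⟩ := h
    have h1 : 1 ≤ m := Nat.pos_of_ne_zero fun h0 => hp (by rw [← hm, h0]; rfl)
    obtain ⟨X, V, _, _, _, _, _, _, ρ, h4, h5, h6⟩ := exists_fermat_group p m h1 hm
    exact exact_fermat p F hp (LP_holds hp (Nat.sub_le p 1) fun _ _ => by omega)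
      (lt_maxLength_odd p F hp)
      (fun k n h7 => lt_maxLength_base p F hp ρ h4 (by omega) h6 k n (by rwa [h5])) n hn
  · refine exact_nonfermat p F (LP_holds hp le_rfl fun i hi => absurd ⟨i, ?_, hi⟩ h)
      (lt_maxLength_odd p F hp) n hn
    have := Nat.lt_two_pow_self (n := i)
    omega

end Pool.Agent.Work.MP_d3ab46_al.J.ExactValue

/-!
For every finite field `F` of characteristic `p`, the largest `p`-length of a `p`-solvable
subgroup of `GL(n, F)`, divided by `log₂ n`, tends to `1 / log₂ (max p 3)`, which is not `1`.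
-/

namespace Pool.Agent.Work.MP_d3ab46_al.J.TrueLimit

open Filter Topology Pool.Agent.Work.MP_d3ab46_al

lemma tendsto_of_bounds (b : ℕ) (hb : 3 ≤ b) (m : ℕ → ℕ) (h₁ : ∀ n, m n ≤ Nat.log b n + 2)
    (h₂ : ∀ n, n ≠ 0 → Nat.log b n ≤ m n + 1) :
    Tendsto (fun n : ℕ => (m n : ℝ) / Real.logb 2 n) atTop (𝓝 (Real.logb 2 b)⁻¹) := by
  have hb1 : (1 : ℝ) < b := by exact_mod_cast (by omega : 1 < b)
  have h0 : Tendsto (fun n : ℕ => Real.logb 2 n) atTop atTop :=
    (Real.tendsto_logb_atTop one_lt_two).comp tendsto_natCast_atTop_atTop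
  have h3 : Tendsto (fun n : ℕ => 2 / Real.logb 2 n) atTop (𝓝 0) := h0.const_div_atTop 2
  have h4 : ∀ n : ℕ, 2 ≤ n → |(m n : ℝ) - Real.logb b n| ≤ 2 := by
    intro n hn
    have h5 : (Nat.log b n : ℝ) ≤ Real.logb b n := Real.natLog_le_logb n b
    have h6 : Real.logb b n < Nat.log b n + 1 := by
      rw [Real.logb_lt_iff_lt_rpow hb1 (by exact_mod_cast (by omega : 0 < n))]
      exact_mod_cast Nat.lt_pow_succ_log_self (by omega : 1 < b) n
    have h7 : (m n : ℝ) ≤ Nat.log b n + 2 := by exact_mod_cast h₁ n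
    have h8 : (Nat.log b n : ℝ) ≤ m n + 1 := by exact_mod_cast h₂ n (by omega)
    rw [abs_le]
    constructor <;> linarith only [h6, h8, h5, h7]
  rw [tendsto_iff_norm_sub_tendsto_zero]
  refine squeeze_zero' (Eventually.of_forall fun _ => norm_nonneg _) ?_ h3
  filter_upwards [eventually_ge_atTop 2] with n hn
  have hn1 : (1 : ℝ) < n := by exact_mod_cast (by omega : 1 < n)
  have h5 : 0 < Real.logb 2 n := Real.logb_pos one_lt_two hn1
  have h6 : (Real.logb 2 b)⁻¹ = Real.logb b n / Real.logb 2 n := by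
    have := (Real.log_pos hn1).ne'
    have := (Real.log_pos hb1).ne'
    have := (Real.log_pos (one_lt_two : (1 : ℝ) < 2)).ne'
    simp only [Real.logb]
    field_simp
  rw [h6, ← sub_div, Real.norm_eq_abs, abs_div, abs_of_pos h5]
  exact div_le_div_of_nonneg_right (h4 n hn) h5.le

theorem result (p : ℕ) [Fact p.Prime] (F : Type) [Field F] [Finite F] [CharP F p] :
    Tendsto (fun n : ℕ => (maxLength p F n : ℝ) / Real.logb 2 n) atTop
        (𝓝 (Real.logb 2 (max p 3 : ℕ))⁻¹) ∧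
      ¬ Tendsto (fun n : ℕ => (maxLength p F n : ℝ) / Real.logb 2 n) atTop (𝓝 1) := by
  have h := tendsto_of_bounds (max p 3) (le_max_right _ _) (maxLength p F) (maxLength_le p F)
    (le_maxLength p F)
  refine ⟨h, fun h' => ?_⟩
  have h1 := tendsto_nhds_unique h h'
  rw [inv_eq_one] at h1
  have h2 : (2 : ℝ) < (max p 3 : ℕ) := by exact_mod_cast (by omega : 2 < max p 3)
  have h3 := Real.logb_lt_logb one_lt_two two_pos h2
  rw [h1, Real.logb_self_eq_one one_lt_two] at h3
  exact lt_irrefl _ h3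

end Pool.Agent.Work.MP_d3ab46_al.J.TrueLimit
end
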